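import Pool.Agent.TP97.UpNum

/-!
# TP97/UpS: the block machine with `S` bits of memory
-/

set_option autoImplicit false

namespace Pool.Agent.TP97

open Finset Pool.Agent.TS42

/-- the block machine with `S` bits of memory -/
theorem upper_S (n S : ℕ) (hn : 2 ≤ n) (hS : 13 * (Nat.log 2 n + 1) ≤ S) :
    ∃ (Q : Type) (_ : Fintype Q) (M : Machine n 2 Q), Fintype.card Q ≤ 2 ^ S ∧
      ∀ x : Fin n → ℤ, Inp n x → M.Correct x ∧
        S * M.time x ≤ 780 * (n ^ 2 * (Nat.log 2 n + 1)) + 30 * (n * S) ∧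
        S * travel (M.run x) (M.time x) ≤ 780 * (n ^ 2 * (Nat.log 2 n + 1)) + 30 * (n * S) := by
  obtain ⟨L, hL⟩ : ∃ L, L = Nat.log 2 n + 1 := ⟨_, rfl⟩
  rw [← hL] at hS ⊢
  have hL1 : 1 ≤ L := by omega
  have hK : 0 < 13 * L := by omega
  obtain ⟨s, hs⟩ : ∃ s, s = S / (13 * L) := ⟨_, rfl⟩
  have hs1 : 1 ≤ s := by
    rw [hs]
    exact (Nat.le_div_iff_mul_le hK).2 (by omega)
  have hsK : s * (13 * L) ≤ S := by
    rw [hs]
    exact Nat.div_mul_le_self _ _
  have hSs : S < s * (13 * L) + 13 * L := by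
    rw [hs]
    exact Nat.lt_div_mul_add hK
  rcases le_total s n with h | h
  · obtain ⟨Q, iQ, M, h1, h2⟩ := upper n s hs1 h hn
    rw [← hL] at h1
    refine ⟨Q, iQ, M, h1.trans (Nat.pow_le_pow_right (by norm_num) ?_), fun x hx => ?_⟩
    · calc 13 * s * L = s * (13 * L) := by ring
        _ ≤ S := hsK
    · obtain ⟨h3, h4, h5⟩ := h2 x hx
      have h6 : S ≤ 26 * L * s := by
        have : 1 * (13 * L) ≤ s * (13 * L) := Nat.mul_le_mul_right _ hs1
        calc S ≤ s * (13 * L) + s * (13 * L) := by omega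
          _ = 26 * L * s := by ring
      have h7 : ∀ t : ℕ, s * t ≤ 30 * n ^ 2 → S * t ≤ 780 * (n ^ 2 * L) + 30 * (n * S) := by
        intro t ht
        calc S * t ≤ 26 * L * s * t := Nat.mul_le_mul_right t h6
          _ = 26 * L * (s * t) := by ring
          _ ≤ 26 * L * (30 * n ^ 2) := Nat.mul_le_mul_left _ ht
          _ = 780 * (n ^ 2 * L) := by ring
          _ ≤ 780 * (n ^ 2 * L) + 30 * (n * S) := Nat.le_add_right _ _
      exact ⟨h3, h7 _ h4, h7 _ h5⟩
  · obtain ⟨Q, iQ, M, h1, h2⟩ := upper n n (by omega) le_rfl hn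
    rw [← hL] at h1
    refine ⟨Q, iQ, M, h1.trans (Nat.pow_le_pow_right (by norm_num) ?_), fun x hx => ?_⟩
    · calc 13 * n * L = n * (13 * L) := by ring
        _ ≤ s * (13 * L) := Nat.mul_le_mul_right _ h
        _ ≤ S := hsK
    · obtain ⟨h3, h4, h5⟩ := h2 x hx
      have h7 : ∀ t : ℕ, n * t ≤ 30 * n ^ 2 → S * t ≤ 780 * (n ^ 2 * L) + 30 * (n * S) := by
        intro t ht
        have ht' : t ≤ 30 * n := by
          have h8 : n * t ≤ n * (30 * n) := by
            calc n * t ≤ 30 * n ^ 2 := ht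
              _ = n * (30 * n) := by ring
          exact le_of_mul_le_mul_left h8 (by omega)
        calc S * t ≤ S * (30 * n) := Nat.mul_le_mul_left S ht'
          _ = 30 * (n * S) := by ring
          _ ≤ 780 * (n ^ 2 * L) + 30 * (n * S) := Nat.le_add_left _ _
      exact ⟨h3, h7 _ h4, h7 _ h5⟩

end Pool.Agent.TP97
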