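import Mathlib

/-!
# TP97/Arr: the arrays

`Z = 4096 m` cells in each of five zones, the rest of the array is filled with large numbers.
Only a number of the first zone and a number of the third zone can have their sum in the array, and
then all three are at the same place of the zones 1, 3, 5.
-/

set_option autoImplicit false

namespace Pool.Agent.TP97

/-- the values; `al`, `be`, `ga` are the low order bits in the zones 1, 3, 5 -/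
def V (Z : ℕ) (al be ga : ℕ → ℤ) (p : ℕ) : ℤ :=
  if p < Z then 4 * (100 * (Z : ℤ) ^ 2) + (8 * p + al p)
  else if p < 2 * Z then 9 * (100 * (Z : ℤ) ^ 2) + p
  else if p < 3 * Z then 12 * (100 * (Z : ℤ) ^ 2) + (8 * ((Z : ℤ) * ((p - 2 * Z : ℕ) : ℤ)) + be (p - 2 * Z))
  else if p < 4 * Z then 14 * (100 * (Z : ℤ) ^ 2) + p
  else if p < 5 * Z then
    16 * (100 * (Z : ℤ) ^ 2) + (8 * ((Z : ℤ) * ((p - 4 * Z : ℕ) : ℤ) + ((p - 4 * Z : ℕ) : ℤ)) + ga (p - 4 * Z))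
  else 100 * (100 * (Z : ℤ) ^ 2) + p

section

variable {Z : ℕ} {al be ga : ℕ → ℤ}

theorem V_zone (hZ : 4096 ≤ Z) (hal : ∀ e, al e = 0 ∨ al e = 1) (hbe : ∀ e, be e = 0 ∨ be e = 2)
    (hga : ∀ e, ga e = 0 ∨ ga e = 4) {p : ℕ} (hp : p < 10 * Z) :
    ∃ o : ℤ, 0 ≤ o ∧ 2 * o < 100 * (Z : ℤ) ^ 2 ∧
      ((p < Z ∧ V Z al be ga p = 4 * (100 * (Z : ℤ) ^ 2) + o ∧ o = 8 * p + al p) ∨
       (Z ≤ p ∧ p < 2 * Z ∧ V Z al be ga p = 9 * (100 * (Z : ℤ) ^ 2) + o ∧ o = p) ∨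
       (2 * Z ≤ p ∧ p < 3 * Z ∧ V Z al be ga p = 12 * (100 * (Z : ℤ) ^ 2) + o ∧
          o = 8 * ((Z : ℤ) * ((p - 2 * Z : ℕ) : ℤ)) + be (p - 2 * Z)) ∨
       (3 * Z ≤ p ∧ p < 4 * Z ∧ V Z al be ga p = 14 * (100 * (Z : ℤ) ^ 2) + o ∧ o = p) ∨
       (4 * Z ≤ p ∧ p < 5 * Z ∧ V Z al be ga p = 16 * (100 * (Z : ℤ) ^ 2) + o ∧
          o = 8 * ((Z : ℤ) * ((p - 4 * Z : ℕ) : ℤ) + ((p - 4 * Z : ℕ) : ℤ)) + ga (p - 4 * Z)) ∨
       (5 * Z ≤ p ∧ V Z al be ga p = 100 * (100 * (Z : ℤ) ^ 2) + o ∧ o = p)) := by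
  have hZ' : (4096 : ℤ) ≤ Z := by exact_mod_cast hZ
  have hZ2 : (4096 : ℤ) * Z ≤ (Z : ℤ) ^ 2 := by nlinarith
  by_cases c1 : p < Z
  · refine ⟨8 * p + al p, ?_, ?_, Or.inl ⟨c1, ?_, rfl⟩⟩
    · rcases hal p with h | h <;> rw [h] <;> positivity
    · rcases hal p with h | h <;> rw [h] <;> omega
    · unfold V; rw [if_pos c1]
  by_cases c2 : p < 2 * Z
  · refine ⟨p, by positivity, by omega, Or.inr (Or.inl ⟨by omega, c2, ?_, rfl⟩)⟩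
    unfold V; rw [if_neg c1, if_pos c2]
  by_cases c3 : p < 3 * Z
  · have h1 : (Z : ℤ) * ((p - 2 * Z : ℕ) : ℤ) ≤ (Z : ℤ) ^ 2 := by
      rw [pow_two]
      refine mul_le_mul_of_nonneg_left ?_ (by positivity)
      omega
    have h0 : 0 ≤ (Z : ℤ) * ((p - 2 * Z : ℕ) : ℤ) := by positivity
    refine ⟨8 * ((Z : ℤ) * ((p - 2 * Z : ℕ) : ℤ)) + be (p - 2 * Z), ?_, ?_,
      Or.inr (Or.inr (Or.inl ⟨by omega, c3, ?_, rfl⟩))⟩
    · rcases hbe (p - 2 * Z) with h | h <;> rw [h] <;> omega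
    · rcases hbe (p - 2 * Z) with h | h <;> rw [h] <;> omega
    · unfold V; rw [if_neg c1, if_neg c2, if_pos c3]
  by_cases c4 : p < 4 * Z
  · refine ⟨p, by positivity, by omega, Or.inr (Or.inr (Or.inr (Or.inl ⟨by omega, c4, ?_, rfl⟩)))⟩
    unfold V; rw [if_neg c1, if_neg c2, if_neg c3, if_pos c4]
  by_cases c5 : p < 5 * Z
  · have h1 : (Z : ℤ) * ((p - 4 * Z : ℕ) : ℤ) ≤ (Z : ℤ) ^ 2 := by
      rw [pow_two]
      refine mul_le_mul_of_nonneg_left ?_ (by positivity)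
      omega
    have h0 : 0 ≤ (Z : ℤ) * ((p - 4 * Z : ℕ) : ℤ) := by positivity
    refine ⟨8 * ((Z : ℤ) * ((p - 4 * Z : ℕ) : ℤ) + ((p - 4 * Z : ℕ) : ℤ)) + ga (p - 4 * Z), ?_, ?_,
      Or.inr (Or.inr (Or.inr (Or.inr (Or.inl ⟨by omega, c5, ?_, rfl⟩))))⟩
    · rcases hga (p - 4 * Z) with h | h <;> rw [h] <;> omega
    · rcases hga (p - 4 * Z) with h | h <;> rw [h] <;> omega
    · unfold V; rw [if_neg c1, if_neg c2, if_neg c3, if_neg c4, if_pos c5]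
  · refine ⟨p, by positivity, by omega, Or.inr (Or.inr (Or.inr (Or.inr (Or.inr ⟨by omega, ?_, rfl⟩))))⟩
    unfold V; rw [if_neg c1, if_neg c2, if_neg c3, if_neg c4, if_neg c5]

theorem V_mono (hZ : 4096 ≤ Z) (hal : ∀ e, al e = 0 ∨ al e = 1) (hbe : ∀ e, be e = 0 ∨ be e = 2)
    (hga : ∀ e, ga e = 0 ∨ ga e = 4) {p q : ℕ} (hq : q < 10 * Z) (hpq : p < q) :
    V Z al be ga p < V Z al be ga q := by
  obtain ⟨o1, h0, h1, H⟩ := V_zone hZ hal hbe hga (lt_trans hpq hq)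
  obtain ⟨o2, h2, h3, K⟩ := V_zone hZ hal hbe hga hq
  have hmul : ∀ a b : ℕ, a < b → (Z : ℤ) * (a : ℤ) + Z ≤ (Z : ℤ) * (b : ℤ) := by
    intro a b hab
    have : (a : ℤ) + 1 ≤ b := by exact_mod_cast hab
    nlinarith
  have e1 : 2 * Z ≤ p → (Z : ℤ) * ((p - 2 * Z : ℕ) : ℤ) + Z ≤ (Z : ℤ) * ((q - 2 * Z : ℕ) : ℤ) :=
    fun h => hmul _ _ (by omega)
  have e2 : 4 * Z ≤ p → (Z : ℤ) * ((p - 4 * Z : ℕ) : ℤ) + Z ≤ (Z : ℤ) * ((q - 4 * Z : ℕ) : ℤ) :=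
    fun h => hmul _ _ (by omega)
  have a1 := hal p
  have a2 := hal q
  have b1 := hbe (p - 2 * Z)
  have b2 := hbe (q - 2 * Z)
  have g1 := hga (p - 4 * Z)
  have g2 := hga (q - 4 * Z)
  generalize (Z : ℤ) * ((p - 2 * Z : ℕ) : ℤ) = A1 at *
  generalize (Z : ℤ) * ((q - 2 * Z : ℕ) : ℤ) = A2 at *
  generalize (Z : ℤ) * ((p - 4 * Z : ℕ) : ℤ) = A3 at *
  generalize (Z : ℤ) * ((q - 4 * Z : ℕ) : ℤ) = A4 at *
  generalize (Z : ℤ) ^ 2 = w at *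
  rcases H with H | H | H | H | H | H <;> rcases K with K | K | K | K | K | K <;> omega

theorem V_sum (hZ : 4096 ≤ Z) (hal : ∀ e, al e = 0 ∨ al e = 1) (hbe : ∀ e, be e = 0 ∨ be e = 2)
    (hga : ∀ e, ga e = 0 ∨ ga e = 4) {p q r : ℕ} (hp : p < 10 * Z) (hq : q < 10 * Z)
    (hr : r < 10 * Z) (hpq : p ≤ q) (h : V Z al be ga p + V Z al be ga q = V Z al be ga r) :
    ∃ e < Z, al e = 0 ∧ be e = 0 ∧ ga e = 0 := by
  obtain ⟨o1, h0, h1, H⟩ := V_zone hZ hal hbe hga hp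
  obtain ⟨o2, h2, h3, K⟩ := V_zone hZ hal hbe hga hq
  obtain ⟨o3, h4, h5, L⟩ := V_zone hZ hal hbe hga hr
  have hmul : ∀ a b : ℕ, a < b → (Z : ℤ) * (a : ℤ) + Z ≤ (Z : ℤ) * (b : ℤ) := by
    intro a b hab
    have : (a : ℤ) + 1 ≤ b := by exact_mod_cast hab
    nlinarith
  have key : (p < Z ∧ o1 = 8 * p + al p) ∧ (2 * Z ≤ q ∧ q < 3 * Z ∧
      o2 = 8 * ((Z : ℤ) * ((q - 2 * Z : ℕ) : ℤ)) + be (q - 2 * Z)) ∧
      (4 * Z ≤ r ∧ r < 5 * Z ∧ o3 = 8 * ((Z : ℤ) * ((r - 4 * Z : ℕ) : ℤ) + ((r - 4 * Z : ℕ) : ℤ)) +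
        ga (r - 4 * Z)) ∧ o1 + o2 = o3 := by
    generalize (Z : ℤ) * ((p - 2 * Z : ℕ) : ℤ) = A1 at *
    generalize (Z : ℤ) * ((q - 2 * Z : ℕ) : ℤ) = A2 at *
    generalize (Z : ℤ) * ((r - 2 * Z : ℕ) : ℤ) = A2' at *
    generalize (Z : ℤ) * ((p - 4 * Z : ℕ) : ℤ) = A3 at *
    generalize (Z : ℤ) * ((q - 4 * Z : ℕ) : ℤ) = A4 at *
    generalize (Z : ℤ) * ((r - 4 * Z : ℕ) : ℤ) = A5 at *
    generalize V Z al be ga p = v1 at *
    generalize V Z al be ga q = v2 at *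
    generalize V Z al be ga r = v3 at *
    generalize (Z : ℤ) ^ 2 = w at *
    rcases H with H | H | H | H | H | H <;> rcases K with K | K | K | K | K | K <;>
      rcases L with L | L | L | L | L | L <;>
      first
        | (exfalso; clear hmul hal hbe hga; omega)
        | exact ⟨⟨H.1, H.2.2⟩, ⟨K.1, K.2.1, K.2.2.2⟩, ⟨L.1, L.2.1, L.2.2.2⟩, by omega⟩
  obtain ⟨⟨c1, c2⟩, ⟨c3, c4, c5⟩, ⟨c6, c7, c8⟩, c9⟩ := key
  obtain ⟨f, hf⟩ : ∃ f, f = q - 2 * Z := ⟨_, rfl⟩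
  obtain ⟨g, hg⟩ : ∃ g, g = r - 4 * Z := ⟨_, rfl⟩
  rw [← hf] at c5
  rw [← hg] at c8
  have a1 := hal p
  have b1 := hbe f
  have g1 := hga g
  have hfg : f = g := by
    rcases Nat.lt_trichotomy f g with hlt | heq | hgt
    · exfalso
      have := hmul f g hlt
      generalize (Z : ℤ) * (f : ℤ) = A1 at *
      generalize (Z : ℤ) * (g : ℤ) = A2 at *
      omega
    · exact heq
    · exfalso
      have := hmul g f hgt
      generalize (Z : ℤ) * (f : ℤ) = A1 at *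
      generalize (Z : ℤ) * (g : ℤ) = A2 at *
      omega
  subst hfg
  generalize (Z : ℤ) * (f : ℤ) = A1 at *
  have hpf : p = f := by omega
  subst hpf
  exact ⟨p, c1, by omega, by omega, by omega⟩

theorem V_diag (hZ : 4096 ≤ Z) {e : ℕ} (he : e < Z) (h1 : al e = 0) (h2 : be e = 0) (h3 : ga e = 0) :
    V Z al be ga e + V Z al be ga (2 * Z + e) = V Z al be ga (4 * Z + e) := by
  unfold V
  rw [if_pos he, if_neg (by omega), if_neg (by omega), if_pos (by omega : 2 * Z + e < 3 * Z),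
    if_neg (by omega), if_neg (by omega), if_neg (by omega), if_neg (by omega),
    if_pos (by omega : 4 * Z + e < 5 * Z)]
  have e1 : 2 * Z + e - 2 * Z = e := by omega
  have e2 : 4 * Z + e - 4 * Z = e := by omega
  rw [e1, e2, h1, h2, h3]
  ring

theorem V_bound (hZ : 4096 ≤ Z) (hal : ∀ e, al e = 0 ∨ al e = 1) (hbe : ∀ e, be e = 0 ∨ be e = 2)
    (hga : ∀ e, ga e = 0 ∨ ga e = 4) {n p : ℕ} (hn : 5 * Z ≤ n) (hn' : n ≤ 10 * Z) (hp : p < n) :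
    |V Z al be ga p| ≤ (n : ℤ) ^ 3 := by
  obtain ⟨o, h0, h1, H⟩ := V_zone hZ hal hbe hga (lt_of_lt_of_le hp hn')
  have hw : 0 ≤ (Z : ℤ) ^ 2 := by positivity
  have h2 : |V Z al be ga p| ≤ 101 * (100 * (Z : ℤ) ^ 2) := by
    generalize (Z : ℤ) ^ 2 = w at *
    rw [abs_le]
    rcases H with H | H | H | H | H | H <;> constructor <;> omega
  have hn5 : (5 : ℤ) * Z ≤ n := by exact_mod_cast hn
  have hZ' : (4096 : ℤ) ≤ Z := by exact_mod_cast hZ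
  have h3 : 25 * (Z : ℤ) ^ 2 ≤ (n : ℤ) ^ 2 := by nlinarith
  have h4 : (20480 : ℤ) ≤ n := by omega
  have h5 : (n : ℤ) ^ 3 = n * (n : ℤ) ^ 2 := by ring
  have h6 : 20480 * (n : ℤ) ^ 2 ≤ n * (n : ℤ) ^ 2 := mul_le_mul_of_nonneg_right h4 (by positivity)
  rw [h5]
  linarith

theorem V_congr {al' be' ga' : ℕ → ℤ} {p : ℕ} (h1 : p < Z → al p = al' p)
    (h2 : 2 * Z ≤ p → p < 3 * Z → be (p - 2 * Z) = be' (p - 2 * Z))
    (h3 : 4 * Z ≤ p → p < 5 * Z → ga (p - 4 * Z) = ga' (p - 4 * Z)) :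
    V Z al be ga p = V Z al' be' ga' p := by
  unfold V
  by_cases c1 : p < Z
  · rw [if_pos c1, if_pos c1, h1 c1]
  by_cases c2 : p < 2 * Z
  · rw [if_neg c1, if_pos c2, if_neg c1, if_pos c2]
  by_cases c3 : p < 3 * Z
  · rw [if_neg c1, if_neg c2, if_pos c3, if_neg c1, if_neg c2, if_pos c3, h2 (by omega) c3]
  by_cases c4 : p < 4 * Z
  · rw [if_neg c1, if_neg c2, if_neg c3, if_pos c4, if_neg c1, if_neg c2, if_neg c3, if_pos c4]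
  by_cases c5 : p < 5 * Z
  · rw [if_neg c1, if_neg c2, if_neg c3, if_neg c4, if_pos c5, if_neg c1, if_neg c2, if_neg c3,
      if_neg c4, if_pos c5, h3 (by omega) c5]
  · rw [if_neg c1, if_neg c2, if_neg c3, if_neg c4, if_neg c5, if_neg c1, if_neg c2, if_neg c3,
      if_neg c4, if_neg c5]

end

end Pool.Agent.TP97
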