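import Pool.Agent.TP97.Inst

/-!
# TP97/Core: two pointers, the count

A label consists of the avoided zones and of the configurations at the ends of the windows.  The
instances with a given label form a cylinder intersection without solutions.
-/

set_option autoImplicit false

namespace Pool.Agent.TP97

open Finset Pool.Agent.TS42

section

variable {α : Type} [Fintype α] [DecidableEq α]

/-- the instances without solution -/
def noins (α : Type) [Fintype α] [DecidableEq α] (m : ℕ) :
    Finset ((Fin m → α) × (Fin m → α) × (Fin m → α → α → Bool)) :=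
  univ.filter fun t => ∀ j, t.2.2 j (t.1 j) (t.2.1 j) = false

theorem half_card (a b : α) :
    2 * (univ.filter (fun M : α → α → Bool => M a b = false)).card =
      Fintype.card (α → α → Bool) := by
  classical
  have h1 : (univ.filter (fun M : α → α → Bool => M a b = false)).card =
      (univ.filter (fun M : α → α → Bool => ¬ M a b = false)).card := by
    refine card_bij (fun M _ => flip a b M) ?_ ?_ ?_
    · intro M hM
      rw [mem_filter] at hM ⊢
      refine ⟨mem_univ _, ?_⟩
      rw [flip_self, hM.2]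
      simp
    · intro M _ M' _ h
      have := congrArg (flip a b) h
      rwa [flip_flip, flip_flip] at this
    · intro M hM
      rw [mem_filter] at hM
      refine ⟨flip a b M, ?_, flip_flip a b M⟩
      rw [mem_filter]
      refine ⟨mem_univ _, ?_⟩
      rw [flip_self]
      simpa using hM.2
  have h2 := card_filter_add_card_filter_not (s := (univ : Finset (α → α → Bool)))
    (fun M : α → α → Bool => M a b = false)
  rw [card_univ] at h2
  omega

theorem noins_card (hα : Fintype.card α = 64) (m : ℕ) : ((noins α m).card : ℝ) =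
    2048 ^ m * (Fintype.card (Fin m → α → α → Bool) : ℝ) := by
  classical
  have h1 : ((noins α m).card : ℝ) = ∑ x : Fin m → α, ∑ y : Fin m → α,
      ((univ.filter (fun z : Fin m → α → α → Bool =>
        ∀ j, z j (x j) (y j) = false)).card : ℝ) := by
    unfold noins
    rw [card_filter, Fintype.sum_prod_type]
    push_cast
    refine sum_congr rfl fun x _ => ?_
    rw [Fintype.sum_prod_type]
    refine sum_congr rfl fun y _ => ?_
    rw [card_filter]
    push_cast
    rfl
  have h2 : ∀ x y : Fin m → α, ((univ.filter (fun z : Fin m → α → α → Bool =>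
        ∀ j, z j (x j) (y j) = false)).card : ℝ) =
      ((Fintype.card (α → α → Bool) : ℝ) / 2) ^ m := by
    intro x y
    have e1 : (univ.filter (fun z : Fin m → α → α → Bool =>
        ∀ j, z j (x j) (y j) = false)) = Fintype.piFinset (fun j : Fin m =>
          univ.filter (fun M : α → α → Bool => M (x j) (y j) = false)) := by
      ext z
      rw [mem_filter, Fintype.mem_piFinset]
      constructor
      · intro h j
        rw [mem_filter]
        exact ⟨mem_univ _, h.2 j⟩
      · intro h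
        exact ⟨mem_univ _, fun j => (mem_filter.1 (h j)).2⟩
    rw [e1, Fintype.card_piFinset]
    push_cast
    have e2 : ∀ j : Fin m, ((univ.filter (fun M : α → α → Bool =>
        M (x j) (y j) = false)).card : ℝ) = (Fintype.card (α → α → Bool) : ℝ) / 2 := by
      intro j
      have := half_card (x j) (y j)
      have h' : (2 : ℝ) * ((univ.filter (fun M : α → α → Bool =>
        M (x j) (y j) = false)).card : ℝ) = (Fintype.card (α → α → Bool) : ℝ) := by
        exact_mod_cast this
      linarith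
    simp only [e2]
    rw [prod_const, card_univ, Fintype.card_fin]
  rw [h1]
  simp only [h2]
  rw [sum_const, sum_const, card_univ, Fintype.card_fun (α := Fin m) (β := α), hα, Fintype.card_fin,
    Fintype.card_fun (α := Fin m) (β := α → α → Bool), Fintype.card_fin, nsmul_eq_mul,
    nsmul_eq_mul, div_pow]
  push_cast
  have h3 : (2048 : ℝ) ^ m = 64 ^ m * (64 ^ m / 2 ^ m) := by
    rw [← div_pow, ← mul_pow]
    norm_num
  rw [h3]
  ring

end

/-- the instances without solution -/
abbrev noinst (m : ℕ) : Finset ((Fin m → Fin 64) × (Fin m → Fin 64) × (Fin m → Fin 64 → Fin 64 → Bool)) :=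
  noins (Fin 64) m

theorem noinst_card (m : ℕ) : ((noinst m).card : ℝ) =
    2048 ^ m * (Fintype.card (Fin m → Fin 64 → Fin 64 → Bool) : ℝ) :=
  noins_card (Fintype.card_fin 64) m

/-- averaging -/
theorem avg {Ω ι : Type} [Fintype Ω] (p : Ω → ℝ) (hp : ∀ ω, 0 ≤ p ω) (hs : ∑ ω, p ω = 1)
    (I : Finset ι) (w : Ω → ι → ℕ) (C0 : ℝ) (h : ∀ i ∈ I, ∑ ω, p ω * (w ω i : ℝ) ≤ C0) (C : ℕ)
    (hC : 4 * C0 < C + 1) :
    ∃ ω, 3 * I.card ≤ 4 * (I.filter (fun i => w ω i ≤ C)).card := by
  by_contra hcon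
  push Not at hcon
  have hmark : ∀ i ∈ I, 3 / 4 ≤ ∑ ω, p ω * (if w ω i ≤ C then (1 : ℝ) else 0) := by
    intro i hi
    have h1 := h i hi
    have h2 : ∑ ω, p ω * (((C : ℝ) + 1) * (if w ω i ≤ C then (0 : ℝ) else 1)) ≤
        ∑ ω, p ω * (w ω i : ℝ) := by
      refine sum_le_sum fun ω _ => mul_le_mul_of_nonneg_left ?_ (hp ω)
      split_ifs with h
      · rw [mul_zero]
        exact Nat.cast_nonneg _
      · rw [mul_one]
        have h3 : C + 1 ≤ w ω i := by omega
        exact_mod_cast h3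
    have h3 : ∑ ω, p ω * (((C : ℝ) + 1) * (if w ω i ≤ C then (0 : ℝ) else 1)) =
        ((C : ℝ) + 1) * ∑ ω, p ω * (if w ω i ≤ C then (0 : ℝ) else 1) := by
      rw [mul_sum]
      exact sum_congr rfl fun ω _ => by ring
    have h4 : (∑ ω, p ω * (if w ω i ≤ C then (0 : ℝ) else 1)) +
        ∑ ω, p ω * (if w ω i ≤ C then (1 : ℝ) else 0) = 1 := by
      rw [← sum_add_distrib]
      refine Eq.trans (sum_congr rfl fun ω _ => ?_) hs
      split_ifs <;> ring
    rw [h3] at h2
    have hC1 : (0 : ℝ) < (C : ℝ) + 1 := by positivity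
    have h6 : 4 * (∑ ω, p ω * (if w ω i ≤ C then (0 : ℝ) else 1)) < 1 := by
      by_contra hc
      push Not at hc
      have h7 := mul_le_mul_of_nonneg_left hc hC1.le
      linarith
    linarith
  have hsum : 3 / 4 * (I.card : ℝ) ≤ ∑ ω, p ω * ((I.filter (fun i => w ω i ≤ C)).card : ℝ) := by
    have h1 : ∀ ω, ((I.filter (fun i => w ω i ≤ C)).card : ℝ) =
        ∑ i ∈ I, (if w ω i ≤ C then (1 : ℝ) else 0) := by
      intro ω
      rw [card_filter]
      push_cast
      rfl
    simp only [h1, mul_sum]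
    rw [sum_comm]
    have h2 : ∑ i ∈ I, (3 / 4 : ℝ) ≤
        ∑ i ∈ I, ∑ ω, p ω * (if w ω i ≤ C then (1 : ℝ) else 0) :=
      sum_le_sum fun i hi => hmark i hi
    rw [sum_const, nsmul_eq_mul, mul_comm] at h2
    exact h2
  have hlt : ∑ ω, p ω * ((I.filter (fun i => w ω i ≤ C)).card : ℝ) ≤
      ∑ ω, p ω * ((3 * (I.card : ℝ) - 1) / 4) := by
    refine sum_le_sum fun ω _ => mul_le_mul_of_nonneg_left ?_ (hp ω)
    have h1 : 4 * (I.filter (fun i => w ω i ≤ C)).card + 1 ≤ 3 * I.card := hcon ω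
    have h2 : (4 : ℝ) * ((I.filter (fun i => w ω i ≤ C)).card : ℝ) + 1 ≤ 3 * (I.card : ℝ) := by
      exact_mod_cast h1
    linarith
  rw [← sum_mul, hs, one_mul] at hlt
  linarith

open Classical in
theorem two_core {Q : Type} [Fintype Q] {n m : ℕ} (hm : 0 < m) (D P : ℕ)
    (hP : D < P * (2048 * m)) (M : NMachine n 2 Q)
    (hbig : 3 * (noinst m).card ≤ 4 * ((noinst m).filter (fun t =>
      ∃ T c, M.Comp (arr n hm t.1 t.2.1 t.2.2) T c ∧ travel c T ≤ D)).card)
    (hsound : ∀ x y z, M.Accepts (arr n hm x y z) → ∀ j, z j (x j) (y j) = false) :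
    3 * (4 : ℝ) ^ m ≤ 4 * (3 : ℝ) ^ m * ((3 : ℝ) ^ P * (Fintype.card (Conf n 2 Q) : ℝ) ^ (P + 1)) := by
  -- the instances with a label
  obtain ⟨R, hR⟩ : ∃ R : (Fin P → Fin 3) × (Fin (P + 1) → Conf n 2 Q) →
      (Fin m → Fin 64) × (Fin m → Fin 64) × (Fin m → Fin 64 → Fin 64 → Bool) → Prop,
      ∀ l t, R l t ↔ (l.2 0 = M.start ∧ M.acc (l.2 (Fin.last P)) ∧ ∀ s : Fin P,
        M.Seg (arr n hm t.1 t.2.1 t.2.2) (zone n m (l.1 s)) (l.2 s.castSucc) (l.2 s.succ)) :=
    ⟨_, fun _ _ => Iff.rfl⟩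
  have hcover : (noinst m).filter (fun t =>
      ∃ T c, M.Comp (arr n hm t.1 t.2.1 t.2.2) T c ∧ travel c T ≤ D) ⊆
      univ.biUnion (fun l => univ.filter (fun t => R l t)) := by
    intro t ht
    rw [mem_filter] at ht
    obtain ⟨_, T, c, hc, htr⟩ := ht
    obtain ⟨ζ, σ, h1, h2, h3⟩ := label hm M _ D P T hP c hc htr
    rw [mem_biUnion]
    refine ⟨(ζ, σ), mem_univ _, ?_⟩
    rw [mem_filter, hR]
    exact ⟨mem_univ _, h1, h2, h3⟩
  have hsmall : ∀ l, ((univ.filter (fun t => R l t)).card : ℝ) ≤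
      1536 ^ m * (Fintype.card (Fin m → Fin 64 → Fin 64 → Bool) : ℝ) := by
    intro l
    have x0 : Fin m → Fin 64 := fun _ => 0
    have z0 : Fin m → Fin 64 → Fin 64 → Bool := fun _ _ _ => false
    refine le_trans ?_ (nof (m := m) (α := Fin 64) (by simp)
      (fun y z => l.2 0 = M.start ∧ M.acc (l.2 (Fin.last P)) ∧ ∀ s : Fin P, l.1 s = 0 →
        M.Seg (arr n hm x0 y z) (zone n m (l.1 s)) (l.2 s.castSucc) (l.2 s.succ))
      (fun x z => ∀ s : Fin P, l.1 s = 1 →
        M.Seg (arr n hm x x0 z) (zone n m (l.1 s)) (l.2 s.castSucc) (l.2 s.succ))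
      (fun x y => ∀ s : Fin P, l.1 s = 2 →
        M.Seg (arr n hm x y z0) (zone n m (l.1 s)) (l.2 s.castSucc) (l.2 s.succ)) ?_)
    · have : (univ.filter (fun t => R l t)).card ≤ (univ.filter
          (fun t : (Fin m → Fin 64) × (Fin m → Fin 64) × (Fin m → Fin 64 → Fin 64 → Bool) =>
          (l.2 0 = M.start ∧ M.acc (l.2 (Fin.last P)) ∧ ∀ s : Fin P, l.1 s = 0 →
            M.Seg (arr n hm x0 t.2.1 t.2.2) (zone n m (l.1 s)) (l.2 s.castSucc) (l.2 s.succ)) ∧
          (∀ s : Fin P, l.1 s = 1 →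
            M.Seg (arr n hm t.1 x0 t.2.2) (zone n m (l.1 s)) (l.2 s.castSucc) (l.2 s.succ)) ∧
          (∀ s : Fin P, l.1 s = 2 →
            M.Seg (arr n hm t.1 t.2.1 z0) (zone n m (l.1 s)) (l.2 s.castSucc) (l.2 s.succ)))).card := by
        refine card_le_card fun t ht => ?_
        rw [mem_filter, hR] at ht
        obtain ⟨_, h1, h2, h3⟩ := ht
        rw [mem_filter]
        refine ⟨mem_univ _, ⟨h1, h2, fun s hs => ?_⟩, fun s hs => ?_, fun s hs => ?_⟩
        · refine (h3 s).congr fun p hp => ?_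
          rw [hs] at hp
          exact arr_x hp
        · refine (h3 s).congr fun p hp => ?_
          rw [hs] at hp
          exact arr_y hp
        · refine (h3 s).congr fun p hp => ?_
          rw [hs] at hp
          exact arr_z hp
      refine Nat.cast_le.2 ?_
      convert this
    · rintro x y z ⟨h1, h2, h3⟩ h4 h5
      refine hsound x y z (M.accepts_of_segs _ P
        (fun s => l.2 ⟨min s P, Nat.lt_succ_of_le (Nat.min_le_right s P)⟩) ?_ ?_
        (fun s => if hs : s < P then zone n m (l.1 ⟨s, hs⟩) else ∅) ?_)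
      · have : (⟨min 0 P, Nat.lt_succ_of_le (Nat.min_le_right 0 P)⟩ : Fin (P + 1)) = 0 := by
          apply Fin.ext; simp
        rw [this]
        exact h1
      · have : (⟨min P P, Nat.lt_succ_of_le (Nat.min_le_right P P)⟩ : Fin (P + 1)) = Fin.last P := by
          apply Fin.ext; simp
        rw [this]
        exact h2
      · intro s hs
        have e1 : (⟨min s P, Nat.lt_succ_of_le (Nat.min_le_right s P)⟩ : Fin (P + 1)) =
            (⟨s, hs⟩ : Fin P).castSucc := by
          apply Fin.ext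
          show min s P = s
          omega
        have e2 : (⟨min (s + 1) P, Nat.lt_succ_of_le (Nat.min_le_right (s + 1) P)⟩ : Fin (P + 1)) =
            (⟨s, hs⟩ : Fin P).succ := by
          apply Fin.ext
          show min (s + 1) P = s + 1
          omega
        rw [e1, e2, dif_pos hs]
        have hk : l.1 ⟨s, hs⟩ = 0 ∨ l.1 ⟨s, hs⟩ = 1 ∨ l.1 ⟨s, hs⟩ = 2 := by
          generalize l.1 ⟨s, hs⟩ = k
          fin_cases k <;> simp
        rcases hk with hk | hk | hk
        · refine (h3 ⟨s, hs⟩ hk).congr fun p hp => ?_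
          rw [hk] at hp
          exact arr_x hp
        · refine (h4 ⟨s, hs⟩ hk).congr fun p hp => ?_
          rw [hk] at hp
          exact arr_y hp
        · refine (h5 ⟨s, hs⟩ hk).congr fun p hp => ?_
          rw [hk] at hp
          exact arr_z hp
  obtain ⟨NZ, hNZ⟩ : ∃ NZ : ℝ, NZ = (Fintype.card (Fin m → Fin 64 → Fin 64 → Bool) : ℝ) := ⟨_, rfl⟩
  have hNZ0 : 0 < NZ := by
    rw [hNZ]
    exact_mod_cast Fintype.card_pos
  obtain ⟨L, hL⟩ : ∃ L : ℝ, L = (3 : ℝ) ^ P * (Fintype.card (Conf n 2 Q) : ℝ) ^ (P + 1) := ⟨_, rfl⟩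
  have h1 : (((noinst m).filter (fun t =>
      ∃ T c, M.Comp (arr n hm t.1 t.2.1 t.2.2) T c ∧ travel c T ≤ D)).card : ℝ) ≤
      L * (1536 ^ m * NZ) := by
    have h2 : (((noinst m).filter (fun t =>
      ∃ T c, M.Comp (arr n hm t.1 t.2.1 t.2.2) T c ∧ travel c T ≤ D)).card : ℝ) ≤
        ∑ l : (Fin P → Fin 3) × (Fin (P + 1) → Conf n 2 Q), ((univ.filter (fun t => R l t)).card : ℝ) := by
      exact_mod_cast (card_le_card hcover).trans card_biUnion_le
    refine h2.trans ?_
    calc ∑ l : (Fin P → Fin 3) × (Fin (P + 1) → Conf n 2 Q), ((univ.filter (fun t => R l t)).card : ℝ)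
        ≤ ∑ _l : (Fin P → Fin 3) × (Fin (P + 1) → Conf n 2 Q), 1536 ^ m * NZ :=
          sum_le_sum fun l _ => hNZ ▸ hsmall l
      _ = L * (1536 ^ m * NZ) := by
          rw [sum_const, card_univ, nsmul_eq_mul, Fintype.card_prod, Fintype.card_fun,
            Fintype.card_fun, Fintype.card_fin, Fintype.card_fin, Fintype.card_fin, hL]
          push_cast
          ring
  have h2 : 3 * ((noinst m).card : ℝ) ≤ 4 * (L * (1536 ^ m * NZ)) := by
    have h3 : (3 : ℝ) * ((noinst m).card : ℝ) ≤ 4 * (((noinst m).filter (fun t =>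
      ∃ T c, M.Comp (arr n hm t.1 t.2.1 t.2.2) T c ∧ travel c T ≤ D)).card : ℝ) := by
      exact_mod_cast hbig
    linarith
  rw [noinst_card, ← hNZ] at h2
  rw [← hL]
  have h3 : (2048 : ℝ) ^ m = 512 ^ m * 4 ^ m := by rw [← mul_pow]; norm_num
  have h4 : (1536 : ℝ) ^ m = 512 ^ m * 3 ^ m := by rw [← mul_pow]; norm_num
  rw [h3, h4] at h2
  have h5 : (0 : ℝ) < 512 ^ m * NZ := by positivity
  refine le_of_mul_le_mul_left ?_ h5
  calc 512 ^ m * NZ * (3 * 4 ^ m) = 3 * (512 ^ m * 4 ^ m * NZ) := by ring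
    _ ≤ 4 * (L * (512 ^ m * 3 ^ m * NZ)) := h2
    _ = 512 ^ m * NZ * (4 * 3 ^ m * L) := by ring

end Pool.Agent.TP97
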