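import Mathlib

/-!
# TP97/Nof: solution-free cylinder intersections are small

Three players; `x` picks a row, `y` a column in each of `m` matrices, `z` is the list of the matrices.
A cylinder intersection which meets only triples with all selected entries `false` has at most
`1536 ^ m` times as many elements as there are lists of matrices (of `4096 ^ m` times).
-/

set_option autoImplicit false

namespace Pool.Agent.TP97

open Finset

/-- sign of a bit -/
def sg (b : Bool) : ℝ := if b then -1 else 1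

theorem sg_not (b : Bool) : sg (!b) = - sg b := by cases b <;> simp [sg]

theorem sg_sq (b : Bool) : sg b * sg b = 1 := by cases b <;> simp [sg]

section kernel

variable {α : Type} [DecidableEq α]

/-- flip one entry of a matrix -/
def flip (a b : α) (M : α → α → Bool) : α → α → Bool :=
  fun i j => if i = a ∧ j = b then !(M i j) else M i j

theorem flip_flip (a b : α) (M : α → α → Bool) : flip a b (flip a b M) = M := by
  funext i j
  unfold flip
  split_ifs with h <;> simp

theorem flip_self (a b : α) (M : α → α → Bool) : flip a b M a b = !(M a b) := by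
  unfold flip; simp

theorem flip_ne (a b : α) (M : α → α → Bool) {i j : α} (h : ¬ (i = a ∧ j = b)) :
    flip a b M i j = M i j := by
  unfold flip; simp [h]

variable [Fintype α]

/-- the kernel of one coordinate -/
def ker (a a' b b' : α) : ℝ :=
  ∑ M : α → α → Bool, (sg (M a b) * sg (M a' b)) * (sg (M a b') * sg (M a' b'))

theorem ker_eq_left (a b b' : α) : ker a a b b' = (Fintype.card (α → α → Bool) : ℝ) := by
  unfold ker
  rw [sum_congr rfl (g := fun _ => (1 : ℝ)) (fun M _ => by rw [sg_sq, sg_sq, one_mul])]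
  simp

theorem ker_eq_right (a a' b : α) : ker a a' b b = (Fintype.card (α → α → Bool) : ℝ) := by
  unfold ker
  rw [sum_congr rfl (g := fun _ => (1 : ℝ)) (fun M _ => by
    rw [mul_mul_mul_comm, sg_sq, sg_sq, one_mul])]
  simp

theorem ker_ne {a a' b b' : α} (ha : a ≠ a') (hb : b ≠ b') : ker a a' b b' = 0 := by
  have h : ker a a' b b' = - ker a a' b b' := by
    conv_lhs => unfold ker
    rw [← Equiv.sum_comp (Equiv.mk (flip a b) (flip a b) (flip_flip a b) (flip_flip a b))]
    unfold ker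
    rw [← sum_neg_distrib]
    refine sum_congr rfl fun M _ => ?_
    simp only [Equiv.coe_fn_mk]
    rw [flip_self, flip_ne a b M (fun h => ha h.1.symm), flip_ne a b M (fun h => hb h.2.symm),
      flip_ne a b M (fun h => ha h.1.symm), sg_not]
    ring
  linarith

theorem ker_nonneg (a a' b b' : α) : 0 ≤ ker a a' b b' := by
  by_cases ha : a = a'
  · subst ha; rw [ker_eq_left]; positivity
  · by_cases hb : b = b'
    · subst hb; rw [ker_eq_right]; positivity
    · rw [ker_ne ha hb]

theorem ker_symm (a a' b b' : α) : ker a a' b b' = ker a a' b' b := by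
  unfold ker
  exact sum_congr rfl fun M _ => mul_comm _ _

theorem ker_row (a a' b : α) : ∑ b', ker a a' b b' =
    (Fintype.card (α → α → Bool) : ℝ) * (if a = a' then (Fintype.card α : ℝ) else 1) := by
  by_cases ha : a = a'
  · subst ha
    simp only [ker_eq_left, sum_const, card_univ, nsmul_eq_mul, if_true]
    ring
  · rw [if_neg ha, mul_one, sum_eq_single b]
    · exact ker_eq_right a a' b
    · intro b' _ hb
      exact ker_ne ha (Ne.symm hb)
    · intro h; exact absurd (mem_univ b) h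

end kernel

section nof

variable {α : Type} [Fintype α] [DecidableEq α] {m : ℕ}

/-- the character of the selected entries -/
def chi (x y : Fin m → α) (z : Fin m → α → α → Bool) : ℝ := ∏ j, sg (z j (x j) (y j))

theorem chi_kernel (x x' y y' : Fin m → α) :
    ∑ z : Fin m → α → α → Bool, (chi x y z * chi x' y z) * (chi x y' z * chi x' y' z) =
      ∏ j, ker (x j) (x' j) (y j) (y' j) := by
  unfold ker
  rw [prod_univ_sum]
  rw [Fintype.piFinset_univ]
  refine sum_congr rfl fun z _ => ?_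
  unfold chi
  rw [← prod_mul_distrib, ← prod_mul_distrib, ← prod_mul_distrib]

theorem bessel (x x' : Fin m → α) (G : (Fin m → α → α → Bool) → ℝ) (hG : ∀ z, G z ^ 2 ≤ 1) :
    ∑ y : Fin m → α, (∑ z, G z * (chi x y z * chi x' y z)) ^ 2 ≤
      (Fintype.card (Fin m → α → α → Bool) : ℝ) ^ 2 *
        ∏ j, (if x j = x' j then (Fintype.card α : ℝ) else 1) := by
  obtain ⟨A, hA⟩ : ∃ A : (Fin m → α) → ℝ, ∀ y, A y = ∑ z, G z * (chi x y z * chi x' y z) :=
    ⟨_, fun _ => rfl⟩
  obtain ⟨E, hE⟩ : ∃ E : ℝ, E = ∑ y, A y ^ 2 := ⟨_, rfl⟩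
  obtain ⟨NZ, hNZ⟩ : ∃ NZ : ℝ, NZ = (Fintype.card (Fin m → α → α → Bool) : ℝ) := ⟨_, rfl⟩
  obtain ⟨P, hP⟩ : ∃ P : ℝ, P = ∏ j, (if x j = x' j then (Fintype.card α : ℝ) else 1) := ⟨_, rfl⟩
  have hNZ0 : 0 ≤ NZ := by rw [hNZ]; positivity
  have hP0 : 0 ≤ P := by
    rw [hP]
    exact prod_nonneg fun j _ => by split_ifs <;> positivity
  have hE0 : 0 ≤ E := by rw [hE]; exact sum_nonneg fun y _ => sq_nonneg _
  simp only [← hA]
  rw [← hE, ← hNZ, ← hP]
  -- `E` as a pairing
  have h1 : E = ∑ z, G z * ∑ y, A y * (chi x y z * chi x' y z) := by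
    rw [hE]
    have : ∀ y, A y ^ 2 = ∑ z, G z * (A y * (chi x y z * chi x' y z)) := by
      intro y
      rw [pow_two]
      nth_rewrite 2 [hA y]
      rw [mul_sum]
      exact sum_congr rfl fun z _ => by ring
    simp only [this, mul_sum]
    exact sum_comm
  have h2 : E ^ 2 ≤ (∑ z, G z ^ 2) * ∑ z, (∑ y, A y * (chi x y z * chi x' y z)) ^ 2 := by
    rw [h1]
    exact sum_mul_sq_le_sq_mul_sq _ _ _
  have h3 : ∑ z, G z ^ 2 ≤ NZ := by
    calc ∑ z, G z ^ 2 ≤ ∑ _z : Fin m → α → α → Bool, (1 : ℝ) := sum_le_sum fun z _ => hG z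
      _ = NZ := by rw [hNZ]; simp
  have h4 : ∑ z, (∑ y, A y * (chi x y z * chi x' y z)) ^ 2 =
      ∑ y : Fin m → α, ∑ y' : Fin m → α, A y * A y' * ∏ j, ker (x j) (x' j) (y j) (y' j) := by
    have : ∀ z : Fin m → α → α → Bool, (∑ y, A y * (chi x y z * chi x' y z)) ^ 2 =
        ∑ y, ∑ y', A y * A y' * ((chi x y z * chi x' y z) * (chi x y' z * chi x' y' z)) := by
      intro z
      rw [pow_two, sum_mul_sum]
      exact sum_congr rfl fun y _ => sum_congr rfl fun y' _ => by ring
    simp only [this]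
    rw [sum_comm]
    refine sum_congr rfl fun y _ => ?_
    rw [sum_comm]
    refine sum_congr rfl fun y' _ => ?_
    rw [← chi_kernel, mul_sum]
  have h5 : ∑ y : Fin m → α, ∑ y' : Fin m → α, A y * A y' *
      ∏ j, ker (x j) (x' j) (y j) (y' j) ≤ E * (NZ * P) := by
    have hrow : ∀ y : Fin m → α, ∑ y' : Fin m → α, ∏ j, ker (x j) (x' j) (y j) (y' j) = NZ * P := by
      intro y
      have e1 : ∑ y' : Fin m → α, ∏ j, ker (x j) (x' j) (y j) (y' j) =
          ∏ j, ∑ b', ker (x j) (x' j) (y j) b' := by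
        rw [prod_univ_sum, Fintype.piFinset_univ]
      rw [e1]
      simp only [ker_row]
      rw [prod_mul_distrib, ← hP, hNZ]
      congr 1
      rw [prod_const, card_univ, Fintype.card_fin, Fintype.card_fun (α := Fin m), Fintype.card_fin]
      push_cast
      rfl
    have hcol : ∀ y' : Fin m → α, ∑ y : Fin m → α, ∏ j, ker (x j) (x' j) (y j) (y' j) = NZ * P := by
      intro y'
      rw [← hrow y']
      exact sum_congr rfl fun y _ => prod_congr rfl fun j _ => ker_symm _ _ _ _
    have hK0 : ∀ y y' : Fin m → α, 0 ≤ ∏ j, ker (x j) (x' j) (y j) (y' j) :=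
      fun y y' => prod_nonneg fun j _ => ker_nonneg _ _ _ _
    calc ∑ y : Fin m → α, ∑ y' : Fin m → α, A y * A y' * ∏ j, ker (x j) (x' j) (y j) (y' j)
        ≤ ∑ y : Fin m → α, ∑ y' : Fin m → α, ((A y ^ 2 / 2) * ∏ j, ker (x j) (x' j) (y j) (y' j) +
            (A y' ^ 2 / 2) * ∏ j, ker (x j) (x' j) (y j) (y' j)) := by
          refine sum_le_sum fun y _ => sum_le_sum fun y' _ => ?_
          rw [← add_mul]
          refine mul_le_mul_of_nonneg_right ?_ (hK0 y y')
          nlinarith [sq_nonneg (A y - A y')]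
      _ = E * (NZ * P) := by
          simp only [sum_add_distrib]
          have e2 : ∑ y : Fin m → α, ∑ y' : Fin m → α, (A y ^ 2 / 2) * ∏ j, ker (x j) (x' j) (y j) (y' j) =
              E / 2 * (NZ * P) := by
            simp only [← mul_sum, hrow]
            rw [← sum_mul, ← sum_div, ← hE]
          have e3 : ∑ y : Fin m → α, ∑ y' : Fin m → α, (A y' ^ 2 / 2) * ∏ j, ker (x j) (x' j) (y j) (y' j) =
              E / 2 * (NZ * P) := by
            rw [sum_comm]
            simp only [← mul_sum, hcol]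
            rw [← sum_mul, ← sum_div, ← hE]
          rw [e2, e3]; ring
  have h6 : E ^ 2 ≤ NZ * (E * (NZ * P)) := by
    refine h2.trans ?_
    rw [h4]
    have h7 : 0 ≤ E * (NZ * P) := by positivity
    have h8 : 0 ≤ ∑ z : Fin m → α → α → Bool, G z ^ 2 := sum_nonneg fun z _ => sq_nonneg _
    calc (∑ z, G z ^ 2) * ∑ y : Fin m → α, ∑ y' : Fin m → α, A y * A y' * ∏ j, ker (x j) (x' j) (y j) (y' j)
        ≤ (∑ z, G z ^ 2) * (E * (NZ * P)) := mul_le_mul_of_nonneg_left h5 h8
      _ ≤ NZ * (E * (NZ * P)) := mul_le_mul_of_nonneg_right h3 h7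
  rcases hE0.eq_or_lt with h | h
  · rw [← h]; positivity
  · have h9 : E * E ≤ E * (NZ ^ 2 * P) := by nlinarith
    exact le_of_mul_le_mul_left h9 h

theorem sum_abs (hα : Fintype.card α = 64) (x x' : Fin m → α)
    (G : (Fin m → α → α → Bool) → ℝ) (hG : ∀ z, G z ^ 2 ≤ 1) :
    ∑ y : Fin m → α, |∑ z, G z * (chi x y z * chi x' y z)| ≤
      (Fintype.card (Fin m → α → α → Bool) : ℝ) *
        ∏ j, (if x j = x' j then (64 : ℝ) else 8) := by
  have hb := bessel x x' G hG
  have hP0 : (0 : ℝ) ≤ ∏ j, (if x j = x' j then (64 : ℝ) else 8) :=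
    prod_nonneg fun j _ => by split_ifs <;> norm_num
  refine le_of_sq_le_sq ?_ (by positivity)
  have h1 : (∑ y : Fin m → α, |∑ z, G z * (chi x y z * chi x' y z)|) ^ 2 ≤
      (64 : ℝ) ^ m * ∑ y : Fin m → α, (∑ z, G z * (chi x y z * chi x' y z)) ^ 2 := by
    have h2 := sum_mul_sq_le_sq_mul_sq (univ : Finset (Fin m → α)) (fun _ => (1 : ℝ))
      (fun y => |∑ z, G z * (chi x y z * chi x' y z)|)
    simp only [one_mul, one_pow, sq_abs, sum_const, card_univ, nsmul_eq_mul, mul_one] at h2
    rw [Fintype.card_fun, hα, Fintype.card_fin] at h2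
    push_cast at h2
    exact h2
  refine h1.trans ((mul_le_mul_of_nonneg_left hb (by positivity)).trans (le_of_eq ?_))
  rw [mul_pow, ← prod_pow, hα]
  have h3 : (64 : ℝ) ^ m = ∏ _j : Fin m, (64 : ℝ) := by
    rw [prod_const, card_univ, Fintype.card_fin]
  rw [mul_left_comm, h3, ← prod_mul_distrib]
  congr 1
  refine prod_congr rfl fun j _ => ?_
  split_ifs <;> norm_num

theorem sum_row (hα : Fintype.card α = 64) (x : Fin m → α) :
    ∑ x' : Fin m → α, ∏ j, (if x j = x' j then (64 : ℝ) else 8) = 568 ^ m := by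
  have e1 : ∑ x' : Fin m → α, ∏ j, (if x j = x' j then (64 : ℝ) else 8) =
      ∏ j, ∑ a : α, (if x j = a then (64 : ℝ) else 8) := by
    rw [prod_univ_sum, Fintype.piFinset_univ]
  have e2 : ∀ j, ∑ a : α, (if x j = a then (64 : ℝ) else 8) = 568 := by
    intro j
    have e3 : ∀ a : α, (if x j = a then (64 : ℝ) else 8) = (if x j = a then 56 else 0) + 8 := by
      intro a; split_ifs <;> norm_num
    simp only [e3, sum_add_distrib, sum_ite_eq, mem_univ, if_true, sum_const, card_univ, hα,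
      nsmul_eq_mul]
    norm_num
  rw [e1]
  simp only [e2]
  rw [prod_const, card_univ, Fintype.card_fin]

open Classical in
/-- Three players: a cylinder intersection without solutions is small. -/
theorem nof (hα : Fintype.card α = 64) (f g : (Fin m → α) → (Fin m → α → α → Bool) → Prop)
    (h : (Fin m → α) → (Fin m → α) → Prop)
    (hs : ∀ x y z, f y z → g x z → h x y → ∀ j, z j (x j) (y j) = false) :
    ((univ.filter (fun t : (Fin m → α) × (Fin m → α) × (Fin m → α → α → Bool) =>
      f t.2.1 t.2.2 ∧ g t.1 t.2.2 ∧ h t.1 t.2.1)).card : ℝ) ≤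
        1536 ^ m * (Fintype.card (Fin m → α → α → Bool) : ℝ) := by
  obtain ⟨NZ, hNZ⟩ : ∃ NZ : ℝ, NZ = (Fintype.card (Fin m → α → α → Bool) : ℝ) := ⟨_, rfl⟩
  have hNZ0 : 0 ≤ NZ := by rw [hNZ]; positivity
  obtain ⟨F, hF⟩ : ∃ F : (Fin m → α) → (Fin m → α → α → Bool) → ℝ,
    ∀ y z, F y z = if f y z then 1 else 0 := ⟨_, fun _ _ => rfl⟩
  obtain ⟨G, hG⟩ : ∃ G : (Fin m → α) → (Fin m → α → α → Bool) → ℝ,
    ∀ y z, G y z = if g y z then 1 else 0 := ⟨_, fun _ _ => rfl⟩
  obtain ⟨K, hK⟩ : ∃ K : (Fin m → α) → (Fin m → α) → ℝ,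
    ∀ y z, K y z = if h y z then 1 else 0 := ⟨_, fun _ _ => rfl⟩
  obtain ⟨N, hN⟩ : ∃ N : ℝ, N = ((univ.filter (fun t : (Fin m → α) × (Fin m → α) ×
      (Fin m → α → α → Bool) => f t.2.1 t.2.2 ∧ g t.1 t.2.2 ∧ h t.1 t.2.1)).card : ℝ) := ⟨_, rfl⟩
  rw [← hN, ← hNZ]
  have hN0 : 0 ≤ N := by rw [hN]; positivity
  have hF2 : ∀ y z, F y z ^ 2 ≤ 1 := by
    intro y z; rw [hF]; split_ifs <;> norm_num
  have hG2 : ∀ x x' z, (G x z * G x' z) ^ 2 ≤ 1 := by
    intro x x' z; rw [hG, hG]; split_ifs <;> norm_num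
  have hK2 : ∀ x x' y, |K x y * K x' y| ≤ 1 := by
    intro x x' y; rw [hK, hK]; split_ifs <;> norm_num
  have e1 : N = ∑ p : (Fin m → α) × (Fin m → α → α → Bool),
      F p.1 p.2 * ∑ x, K x p.1 * G x p.2 * chi x p.1 p.2 := by
    rw [hN, card_filter, Fintype.sum_prod_type, Fintype.sum_prod_type]
    push_cast
    simp only [mul_sum, Fintype.sum_prod_type]
    rw [sum_comm]
    refine sum_congr rfl fun y _ => ?_
    rw [sum_comm]
    refine sum_congr rfl fun z _ => ?_
    refine sum_congr rfl fun x _ => ?_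
    rw [hF, hG, hK]
    by_cases c1 : f y z
    · by_cases c2 : g x z
      · by_cases c3 : h x y
        · have : chi x y z = 1 := by
            unfold chi
            refine prod_eq_one fun j _ => ?_
            rw [hs x y z c1 c2 c3 j]
            rfl
          simp [c1, c2, c3, this]
        · simp [c3]
      · simp [c2]
    · simp [c1]
  have e2 : N ^ 2 ≤ (∑ p : (Fin m → α) × (Fin m → α → α → Bool), F p.1 p.2 ^ 2) *
      ∑ p : (Fin m → α) × (Fin m → α → α → Bool), (∑ x, K x p.1 * G x p.2 * chi x p.1 p.2) ^ 2 := by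
    rw [e1]
    exact sum_mul_sq_le_sq_mul_sq _ _ _
  have e3 : ∑ p : (Fin m → α) × (Fin m → α → α → Bool), F p.1 p.2 ^ 2 ≤ 64 ^ m * NZ := by
    calc ∑ p : (Fin m → α) × (Fin m → α → α → Bool), F p.1 p.2 ^ 2
        ≤ ∑ _p : (Fin m → α) × (Fin m → α → α → Bool), (1 : ℝ) :=
          sum_le_sum fun p _ => hF2 _ _
      _ = 64 ^ m * NZ := by
          rw [sum_const, card_univ, Fintype.card_prod, hNZ, Fintype.card_fun (α := Fin m) (β := α),
            hα, Fintype.card_fin, nsmul_eq_mul, mul_one]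
          push_cast
          rfl
  have e4 : ∑ p : (Fin m → α) × (Fin m → α → α → Bool),
      (∑ x, K x p.1 * G x p.2 * chi x p.1 p.2) ^ 2 =
      ∑ x : Fin m → α, ∑ x' : Fin m → α, ∑ y : Fin m → α, (K x y * K x' y) *
        ∑ z, (G x z * G x' z) * (chi x y z * chi x' y z) := by
    have e5 : ∀ p : (Fin m → α) × (Fin m → α → α → Bool),
        (∑ x, K x p.1 * G x p.2 * chi x p.1 p.2) ^ 2 =
        ∑ x : Fin m → α, ∑ x' : Fin m → α, (K x p.1 * K x' p.1) *
          ((G x p.2 * G x' p.2) * (chi x p.1 p.2 * chi x' p.1 p.2)) := by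
      intro p
      rw [pow_two, sum_mul_sum]
      exact sum_congr rfl fun x _ => sum_congr rfl fun x' _ => by ring
    simp only [e5]
    rw [sum_comm]
    refine sum_congr rfl fun x _ => ?_
    rw [sum_comm]
    refine sum_congr rfl fun x' _ => ?_
    rw [Fintype.sum_prod_type]
    refine sum_congr rfl fun y _ => ?_
    rw [mul_sum]
  have e6 : ∑ x : Fin m → α, ∑ x' : Fin m → α, ∑ y : Fin m → α, (K x y * K x' y) *
        ∑ z, (G x z * G x' z) * (chi x y z * chi x' y z) ≤ 64 ^ m * (568 ^ m * NZ) := by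
    have e7 : ∀ x x' : Fin m → α, ∑ y : Fin m → α, (K x y * K x' y) *
        ∑ z, (G x z * G x' z) * (chi x y z * chi x' y z) ≤
          NZ * ∏ j, (if x j = x' j then (64 : ℝ) else 8) := by
      intro x x'
      refine le_trans (sum_le_sum fun y _ => ?_) (hNZ ▸ sum_abs hα x x'
        (fun z => G x z * G x' z) (hG2 x x'))
      refine (le_abs_self _).trans ?_
      rw [abs_mul]
      exact (mul_le_mul_of_nonneg_right (hK2 x x' y) (abs_nonneg _)).trans (le_of_eq (one_mul _))
    calc ∑ x : Fin m → α, ∑ x' : Fin m → α, ∑ y : Fin m → α, (K x y * K x' y) *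
        ∑ z, (G x z * G x' z) * (chi x y z * chi x' y z)
        ≤ ∑ x : Fin m → α, ∑ x' : Fin m → α, NZ * ∏ j, (if x j = x' j then (64 : ℝ) else 8) :=
          sum_le_sum fun x _ => sum_le_sum fun x' _ => e7 x x'
      _ = 64 ^ m * (568 ^ m * NZ) := by
          simp only [← mul_sum, sum_row hα]
          rw [sum_const, card_univ, Fintype.card_fun, hα, Fintype.card_fin, nsmul_eq_mul]
          push_cast
          ring
  refine le_of_sq_le_sq ?_ (by positivity)
  rw [e4] at e2
  have e8 : (0 : ℝ) ≤ 64 ^ m * NZ := by positivity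
  have e9 : (0 : ℝ) ≤ 64 ^ m * (568 ^ m * NZ) := by positivity
  calc N ^ 2 ≤ _ := e2
    _ ≤ (64 ^ m * NZ) * (64 ^ m * (568 ^ m * NZ)) := by
        refine (mul_le_mul_of_nonneg_left e6 (sum_nonneg fun p _ => sq_nonneg _)).trans ?_
        exact mul_le_mul_of_nonneg_right e3 e9
    _ = (2326528 : ℝ) ^ m * NZ ^ 2 := by
        have : (2326528 : ℝ) = 64 * (64 * 568) := by norm_num
        rw [this, mul_pow, mul_pow]
        ring
    _ ≤ (2359296 : ℝ) ^ m * NZ ^ 2 := by
        refine mul_le_mul_of_nonneg_right ?_ (sq_nonneg _)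
        exact pow_le_pow_left₀ (by norm_num) (by norm_num) _
    _ = (1536 ^ m * NZ) ^ 2 := by
        have : (2359296 : ℝ) = 1536 ^ 2 := by norm_num
        rw [this, mul_pow, ← pow_mul, ← pow_mul, mul_comm 2 m]

end nof

end Pool.Agent.TP97
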