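import Pool.Agent.TP97.Arr
import Pool.Agent.TP97.Nof
import Pool.Agent.TS42.Seg
import Pool.Agent.TS42.HeadGeom

/-!
# TP97/Inst: the instances

`x`, `y` choose a row and a column in each of `m` matrices of size `64`, `z` is the list of matrices.
The array has a solution if and only if some selected entry is `true`.  The numbers of the zones 1, 3, 5
depend only on `x`, `y`, `z`.  Two pointers are always far from one of the three zones.
-/

set_option autoImplicit false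

namespace Pool.Agent.TP97

open Finset Pool.Agent.TS42

def jj {m : ℕ} (hm : 0 < m) (e : ℕ) : Fin m := ⟨(e / 4096) % m, Nat.mod_lt _ hm⟩

def rr (e : ℕ) : Fin 64 := ⟨(e / 64) % 64, Nat.mod_lt _ (by norm_num)⟩

def ss (e : ℕ) : Fin 64 := ⟨e % 64, Nat.mod_lt _ (by norm_num)⟩

def al {m : ℕ} (hm : 0 < m) (x : Fin m → Fin 64) (e : ℕ) : ℤ := if rr e = x (jj hm e) then 0 else 1

def be {m : ℕ} (hm : 0 < m) (y : Fin m → Fin 64) (e : ℕ) : ℤ := if ss e = y (jj hm e) then 0 else 2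

def ga {m : ℕ} (hm : 0 < m) (z : Fin m → Fin 64 → Fin 64 → Bool) (e : ℕ) : ℤ :=
  if z (jj hm e) (rr e) (ss e) = true then 0 else 4

/-- the array -/
def arr (n : ℕ) {m : ℕ} (hm : 0 < m) (x y : Fin m → Fin 64) (z : Fin m → Fin 64 → Fin 64 → Bool) :
    Fin n → ℤ := fun p => V (4096 * m) (al hm x) (be hm y) (ga hm z) p

/-- the zones 1, 3, 5 -/
def zone (n m : ℕ) (k : Fin 3) : Finset (Fin n) :=
  univ.filter fun p => 2 * (k : ℕ) * (4096 * m) ≤ (p : ℕ) ∧ (p : ℕ) < (2 * (k : ℕ) + 1) * (4096 * m)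

section

variable {n m : ℕ} {hm : 0 < m} {x x' y y' : Fin m → Fin 64} {z z' : Fin m → Fin 64 → Fin 64 → Bool}

theorem al_or (e : ℕ) : al hm x e = 0 ∨ al hm x e = 1 := by
  unfold al; split_ifs <;> simp

theorem be_or (e : ℕ) : be hm y e = 0 ∨ be hm y e = 2 := by
  unfold be; split_ifs <;> simp

theorem ga_or (e : ℕ) : ga hm z e = 0 ∨ ga hm z e = 4 := by
  unfold ga; split_ifs <;> simp

theorem big (hm : 0 < m) : 4096 ≤ 4096 * m := by omega

theorem arr_mono (h2 : n ≤ 10 * (4096 * m)) : StrictMono (arr n hm x y z) := by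
  intro p q hpq
  exact V_mono (big hm) al_or be_or ga_or (lt_of_lt_of_le q.2 h2) hpq

theorem arr_inp (h1 : 5 * (4096 * m) ≤ n) (h2 : n ≤ 10 * (4096 * m)) : Inp n (arr n hm x y z) :=
  ⟨arr_mono h2, fun p => V_bound (big hm) al_or be_or ga_or h1 h2 p.2⟩

theorem arr_sol (h1 : 5 * (4096 * m) ≤ n) (h2 : n ≤ 10 * (4096 * m)) :
    Sol (arr n hm x y z) ↔ ∃ j, z j (x j) (y j) = true := by
  constructor
  · rintro ⟨i, j, l, _, _, _, h⟩
    have key : ∃ e < 4096 * m, al hm x e = 0 ∧ be hm y e = 0 ∧ ga hm z e = 0 := by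
      rcases le_total (i : ℕ) (j : ℕ) with hij | hij
      · exact V_sum (big hm) al_or be_or ga_or (lt_of_lt_of_le i.2 h2) (lt_of_lt_of_le j.2 h2)
          (lt_of_lt_of_le l.2 h2) hij h
      · exact V_sum (big hm) al_or be_or ga_or (lt_of_lt_of_le j.2 h2) (lt_of_lt_of_le i.2 h2)
          (lt_of_lt_of_le l.2 h2) hij ((add_comm _ _).trans h)
    obtain ⟨e, _, a0, b0, g0⟩ := key
    unfold al at a0
    unfold be at b0
    unfold ga at g0
    have a1 : rr e = x (jj hm e) := by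
      by_contra hc; rw [if_neg hc] at a0; exact absurd a0 (by norm_num)
    have b1 : ss e = y (jj hm e) := by
      by_contra hc; rw [if_neg hc] at b0; exact absurd b0 (by norm_num)
    have g1 : z (jj hm e) (rr e) (ss e) = true := by
      by_contra hc; rw [if_neg hc] at g0; exact absurd g0 (by norm_num)
    exact ⟨jj hm e, by rw [← a1, ← b1]; exact g1⟩
  · rintro ⟨j, hj⟩
    obtain ⟨e, he⟩ : ∃ e : ℕ, e = 4096 * (j : ℕ) + 64 * ((x j : Fin 64) : ℕ) + ((y j : Fin 64) : ℕ) :=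
      ⟨_, rfl⟩
    have hx := (x j).2
    have hy := (y j).2
    have hjm := j.2
    have heZ : e < 4096 * m := by omega
    have e1 : jj hm e = j := by
      apply Fin.ext
      show (e / 4096) % m = j
      have : e / 4096 = j := by omega
      rw [this, Nat.mod_eq_of_lt hjm]
    have e2 : rr e = x j := by
      apply Fin.ext
      show (e / 64) % 64 = x j
      omega
    have e3 : ss e = y j := by
      apply Fin.ext
      show e % 64 = y j
      omega
    have a0 : al hm x e = 0 := by unfold al; rw [e1, e2, if_pos rfl]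
    have b0 : be hm y e = 0 := by unfold be; rw [e1, e3, if_pos rfl]
    have g0 : ga hm z e = 0 := by unfold ga; rw [e1, e2, e3, if_pos hj]
    have hd := V_diag (big hm) heZ a0 b0 g0
    have hmono : StrictMono (arr n hm x y z) := arr_mono h2
    refine ⟨⟨e, by omega⟩, ⟨2 * (4096 * m) + e, by omega⟩, ⟨4 * (4096 * m) + e, by omega⟩, ?_, ?_, ?_, hd⟩
    · refine (hmono ?_).ne
      rw [Fin.lt_def]; show e < 2 * (4096 * m) + e; omega
    · refine (hmono ?_).ne
      rw [Fin.lt_def]; show e < 4 * (4096 * m) + e; omega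
    · refine (hmono ?_).ne
      rw [Fin.lt_def]; show 2 * (4096 * m) + e < 4 * (4096 * m) + e; omega

theorem arr_x {p : Fin n} (hp : p ∉ zone n m 0) : arr n hm x y z p = arr n hm x' y z p := by
  refine V_congr (fun h => ?_) (fun _ _ => rfl) (fun _ _ => rfl)
  exfalso
  apply hp
  unfold zone
  rw [mem_filter]
  refine ⟨mem_univ _, ?_, ?_⟩
  · show 2 * 0 * (4096 * m) ≤ (p : ℕ); omega
  · show (p : ℕ) < (2 * 0 + 1) * (4096 * m); omega

theorem arr_y {p : Fin n} (hp : p ∉ zone n m 1) : arr n hm x y z p = arr n hm x y' z p := by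
  refine V_congr (fun _ => rfl) (fun h h' => ?_) (fun _ _ => rfl)
  exfalso
  apply hp
  unfold zone
  rw [mem_filter]
  refine ⟨mem_univ _, ?_, ?_⟩
  · show 2 * 1 * (4096 * m) ≤ (p : ℕ); omega
  · show (p : ℕ) < (2 * 1 + 1) * (4096 * m); omega

theorem arr_z {p : Fin n} (hp : p ∉ zone n m 2) : arr n hm x y z p = arr n hm x y z' p := by
  refine V_congr (fun _ => rfl) (fun _ _ => rfl) (fun h h' => ?_)
  exfalso
  apply hp
  unfold zone
  rw [mem_filter]
  refine ⟨mem_univ _, ?_, ?_⟩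
  · show 2 * 2 * (4096 * m) ≤ (p : ℕ); omega
  · show (p : ℕ) < (2 * 2 + 1) * (4096 * m); omega

/-- Two pointers are far from one of the zones. -/
theorem free_zone (u : Fin 2 → Fin n) :
    ∃ k : Fin 3, ∀ a : Fin 2, ∀ q : Fin n, q ∈ zone n m k → 2048 * m ≤ cdist q (u a) := by
  have hz : ∀ k : Fin 3, ∀ q : Fin n, q ∈ zone n m k →
      2 * (k : ℕ) * (4096 * m) ≤ (q : ℕ) ∧ (q : ℕ) < (2 * (k : ℕ) + 1) * (4096 * m) := by
    intro k q hq
    unfold zone at hq
    rw [mem_filter] at hq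
    exact hq.2
  by_cases c0 : 3 * (2048 * m) ≤ (u 0 : ℕ) ∧ 3 * (2048 * m) ≤ (u 1 : ℕ)
  · refine ⟨0, fun a q hq => ?_⟩
    have h := hz 0 q hq
    have h' : (q : ℕ) < (2 * 0 + 1) * (4096 * m) := h.2
    unfold cdist
    have : 3 * (2048 * m) ≤ ((u a : Fin n) : ℕ) := by
      fin_cases a
      · exact c0.1
      · exact c0.2
    omega
  by_cases c1 : ((u 0 : ℕ) + 2048 * m ≤ 2 * (4096 * m) ∨ 3 * (4096 * m) + 2048 * m ≤ (u 0 : ℕ)) ∧
      ((u 1 : ℕ) + 2048 * m ≤ 2 * (4096 * m) ∨ 3 * (4096 * m) + 2048 * m ≤ (u 1 : ℕ))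
  · refine ⟨1, fun a q hq => ?_⟩
    have h := hz 1 q hq
    have h' : (q : ℕ) < (2 * 1 + 1) * (4096 * m) := h.2
    have h'' : 2 * 1 * (4096 * m) ≤ (q : ℕ) := h.1
    unfold cdist
    have : ((u a : Fin n) : ℕ) + 2048 * m ≤ 2 * (4096 * m) ∨
        3 * (4096 * m) + 2048 * m ≤ ((u a : Fin n) : ℕ) := by
      fin_cases a
      · exact c1.1
      · exact c1.2
    omega
  · refine ⟨2, fun a q hq => ?_⟩
    have h := hz 2 q hq
    have h'' : 2 * 2 * (4096 * m) ≤ (q : ℕ) := h.1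
    unfold cdist
    have : ((u a : Fin n) : ℕ) + 2048 * m ≤ 4 * (4096 * m) := by
      fin_cases a
      · show ((u 0 : Fin n) : ℕ) + 2048 * m ≤ 4 * (4096 * m)
        omega
      · show ((u 1 : Fin n) : ℕ) + 2048 * m ≤ 4 * (4096 * m)
        omega
    omega

/-- the pieces of an accepting computation of small travel -/
theorem label {Q : Type} (hm : 0 < m) (M : NMachine n 2 Q) (X : Fin n → ℤ) (D P T : ℕ)
    (hP : D < P * (2048 * m)) (c : ℕ → Conf n 2 Q) (hc : M.Comp X T c) (htr : travel c T ≤ D) :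
    ∃ (ζ : Fin P → Fin 3) (σ : Fin (P + 1) → Conf n 2 Q), σ 0 = M.start ∧ M.acc (σ (Fin.last P)) ∧
      ∀ s : Fin P, M.Seg X (zone n m (ζ s)) (σ s.castSucc) (σ s.succ) := by
  have hl : 0 < 2048 * m := by omega
  obtain ⟨τ, hτ0, hτP, hmono, hwin⟩ := exists_tau c T P (2048 * m) hl (lt_of_le_of_lt htr hP)
  have hfree := fun s : Fin P => free_zone (m := m) (fun a => (c (τ s)).2 a)
  choose ζ hζ using hfree
  refine ⟨ζ, fun s => c (τ s), ?_, ?_, ?_⟩
  · show c (τ ((0 : Fin (P + 1)) : ℕ)) = M.start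
    rw [Fin.val_zero, hτ0]
    exact hc.1
  · show M.acc (c (τ ((Fin.last P : Fin (P + 1)) : ℕ)))
    rw [Fin.val_last, hτP]
    exact hc.2.2
  · intro s
    show M.Seg X (zone n m (ζ s)) (c (τ (s : ℕ))) (c (τ ((s : ℕ) + 1)))
    refine NMachine.Seg.of_path M X _ _ _ (hmono (Nat.le_succ _)) c fun t ht ht' => ?_
    refine ⟨hc.2.1 t (hwin s t ht ht').1, fun a ha => ?_⟩
    have h1 := hζ s a _ ha
    have h2 := window_near (2048 * m) hl c s (τ s) t
      (hwin s (τ s) le_rfl (lt_of_le_of_lt ht ht')).2 (hwin s t ht ht').2 a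
    omega

end

end Pool.Agent.TP97
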