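import Pool.Agent.TS42.Defs

/-!
# TP97/Mach: the block machine

Two pointers; the memory holds the numbers of two blocks of `s` cells (`A` = block `i`, `B` = block `j`).
Modes: `0` load `A`, `1` load `B`, `2` the second pointer goes back until its number is below all sums
`A + B` (or to the first cell), `3` it goes forward until its number is above all sums (or to the last
cell) and stops at a solution, `4` found, `5` not found.
-/

set_option autoImplicit false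

namespace Pool.Agent.TP97

open Finset Pool.Agent.TS42

/-- codes of the numbers -/
abbrev Vl (n : ℕ) : Type := Fin (2 * n ^ 3 + 1)

def enc (n : ℕ) (v : ℤ) : Vl n := ⟨(v + (n : ℤ) ^ 3).toNat % (2 * n ^ 3 + 1), Nat.mod_lt _ (Nat.succ_pos _)⟩

def dec (n : ℕ) (w : Vl n) : ℤ := ((w : ℕ) : ℤ) - (n : ℤ) ^ 3

theorem dec_enc {n : ℕ} {v : ℤ} (h : |v| ≤ (n : ℤ) ^ 3) : dec n (enc n v) = v := by
  rw [abs_le] at h
  obtain ⟨c, hc⟩ : ∃ c : ℕ, (c : ℤ) = (n : ℤ) ^ 3 := ⟨n ^ 3, by push_cast; rfl⟩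
  have hc' : n ^ 3 = c := by
    have : ((n ^ 3 : ℕ) : ℤ) = (c : ℤ) := by rw [hc]; push_cast; rfl
    exact_mod_cast this
  unfold dec enc
  simp only
  rw [hc', ← hc]
  rw [← hc] at h
  rw [Nat.mod_eq_of_lt (by omega)]
  omega

/-- memory states -/
abbrev St (n s N : ℕ) : Type := Fin 6 × Fin N × Fin N × (Fin s → Vl n) × (Fin s → Vl n)

/-- a configuration -/
def cf {n s N : ℕ} (μ : Fin 6) (i j : Fin N) (A B : Fin s → Vl n) (p q : Fin n) : Conf n 2 (St n s N) :=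
  ((μ, i, j, A, B), ![p, q])

section

variable {n s N : ℕ}

/-- `c` is below all sums of the buffers -/
def Bel (i j : ℕ) (A B : Fin s → Vl n) (c : ℤ) : Prop :=
  ∀ u v : Fin s, i * s + (u : ℕ) < n → j * s + (v : ℕ) < n → c < dec n (A u) + dec n (B v)

/-- `c` is above all sums of the buffers -/
def Abv (i j : ℕ) (A B : Fin s → Vl n) (c : ℤ) : Prop :=
  ∀ u v : Fin s, i * s + (u : ℕ) < n → j * s + (v : ℕ) < n → dec n (A u) + dec n (B v) < c

/-- `c` forms a solution with a number of each buffer -/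
def Hit (i j : ℕ) (A B : Fin s → Vl n) (c : ℤ) : Prop :=
  ∃ u v : Fin s, i * s + (u : ℕ) < n ∧ j * s + (v : ℕ) < n ∧ dec n (A u) ≠ dec n (B v) ∧
    dec n (A u) ≠ c ∧ dec n (B v) ≠ c ∧ dec n (A u) + dec n (B v) = c

/-- write a number into a buffer -/
def upd (hs : 0 < s) (A : Fin s → Vl n) (p : Fin n) (v : ℤ) : Fin s → Vl n :=
  Function.update A ⟨(p : ℕ) % s, Nat.mod_lt _ hs⟩ (enc n v)

open Classical in
/-- the next configuration -/
noncomputable def nxt (hs : 0 < s) (k : Conf n 2 (St n s N)) (v : Fin 2 → ℤ) : Conf n 2 (St n s N) :=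
  if k.1.1 = 0 then
    (if h : (k.2 0 : ℕ) + 1 < n ∧ ((k.2 0 : ℕ) + 1) / s = (k.1.2.1 : ℕ) then
      cf 0 k.1.2.1 k.1.2.2.1 (upd hs k.1.2.2.2.1 (k.2 0) (v 0)) k.1.2.2.2.2 ⟨(k.2 0 : ℕ) + 1, h.1⟩ (k.2 1)
    else
      cf 1 k.1.2.1 ⟨0, lt_of_le_of_lt (Nat.zero_le _) k.1.2.1.2⟩ (upd hs k.1.2.2.2.1 (k.2 0) (v 0))
        k.1.2.2.2.2 ⟨0, lt_of_le_of_lt (Nat.zero_le _) (k.2 0).2⟩
        ⟨0, lt_of_le_of_lt (Nat.zero_le _) (k.2 0).2⟩)
  else if k.1.1 = 1 then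
    (if h : (k.2 0 : ℕ) + 1 < n ∧ ((k.2 0 : ℕ) + 1) / s = (k.1.2.2.1 : ℕ) then
      cf 1 k.1.2.1 k.1.2.2.1 k.1.2.2.2.1 (upd hs k.1.2.2.2.2 (k.2 0) (v 0)) ⟨(k.2 0 : ℕ) + 1, h.1⟩ (k.2 1)
    else
      cf 2 k.1.2.1 k.1.2.2.1 k.1.2.2.2.1 (upd hs k.1.2.2.2.2 (k.2 0) (v 0)) (k.2 0) (k.2 1))
  else if k.1.1 = 2 then
    (if (k.2 1 : ℕ) = 0 ∨ Bel (k.1.2.1 : ℕ) (k.1.2.2.1 : ℕ) k.1.2.2.2.1 k.1.2.2.2.2 (v 1) then
      cf 3 k.1.2.1 k.1.2.2.1 k.1.2.2.2.1 k.1.2.2.2.2 (k.2 0) (k.2 1)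
    else
      cf 2 k.1.2.1 k.1.2.2.1 k.1.2.2.2.1 k.1.2.2.2.2 (k.2 0)
        ⟨(k.2 1 : ℕ) - 1, lt_of_le_of_lt (Nat.sub_le _ _) (k.2 1).2⟩)
  else if k.1.1 = 3 then
    (if Hit (k.1.2.1 : ℕ) (k.1.2.2.1 : ℕ) k.1.2.2.2.1 k.1.2.2.2.2 (v 1) then
      cf 4 k.1.2.1 k.1.2.2.1 k.1.2.2.2.1 k.1.2.2.2.2 (k.2 0) (k.2 1)
    else if h : (k.2 1 : ℕ) + 1 < n ∧
        ¬ Abv (k.1.2.1 : ℕ) (k.1.2.2.1 : ℕ) k.1.2.2.2.1 k.1.2.2.2.2 (v 1) then
      cf 3 k.1.2.1 k.1.2.2.1 k.1.2.2.2.1 k.1.2.2.2.2 (k.2 0) ⟨(k.2 1 : ℕ) + 1, h.1⟩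
    else if h' : (k.1.2.2.1 : ℕ) + 1 < N ∧ ((k.1.2.2.1 : ℕ) + 1) * s < n then
      cf 1 k.1.2.1 ⟨(k.1.2.2.1 : ℕ) + 1, h'.1⟩ k.1.2.2.2.1 k.1.2.2.2.2
        ⟨((k.1.2.2.1 : ℕ) + 1) * s, h'.2⟩ (k.2 1)
    else if h'' : (k.1.2.1 : ℕ) + 1 < N ∧ ((k.1.2.1 : ℕ) + 1) * s < n then
      cf 0 ⟨(k.1.2.1 : ℕ) + 1, h''.1⟩ ⟨0, lt_of_le_of_lt (Nat.zero_le _) k.1.2.1.2⟩ k.1.2.2.2.1
        k.1.2.2.2.2 ⟨((k.1.2.1 : ℕ) + 1) * s, h''.2⟩ (k.2 1)
    else
      cf 5 k.1.2.1 k.1.2.2.1 k.1.2.2.2.1 k.1.2.2.2.2 (k.2 0) (k.2 1))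
  else k

/-- the machine -/
noncomputable def mach (hs : 0 < s) (hn : 0 < n) (hN : 0 < N) : Machine n 2 (St n s N) where
  start := cf 0 ⟨0, hN⟩ ⟨0, hN⟩ (fun _ => ⟨0, Nat.succ_pos _⟩) (fun _ => ⟨0, Nat.succ_pos _⟩) ⟨0, hn⟩ ⟨0, hn⟩
  next := nxt hs
  out := fun k => if k.1.1 = 4 then some true else if k.1.1 = 5 then some false else none

end

/-- big steps: from `k` to `k'` without output before `k'`, at most `d` steps and travel at most `d` -/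
def Go {n H : ℕ} {Q : Type} (M : Machine n H Q) (x : Fin n → ℤ) (k k' : Conf n H Q) (d : ℕ) : Prop :=
  ∃ (t : ℕ) (c : ℕ → Conf n H Q), c 0 = k ∧ c t = k' ∧
    (∀ u < t, M.out (c u) = none ∧ c (u + 1) = M.next (c u) (fun a => x ((c u).2 a))) ∧
      travel c t ≤ d ∧ t ≤ d

theorem Go.refl {n H : ℕ} {Q : Type} (M : Machine n H Q) (x : Fin n → ℤ) (k : Conf n H Q) :
    Go M x k k 0 :=
  ⟨0, fun _ => k, rfl, rfl, fun u hu => absurd hu (Nat.not_lt_zero u), by simp [travel], le_rfl⟩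

theorem Go.mono {n H : ℕ} {Q : Type} {M : Machine n H Q} {x : Fin n → ℤ} {k k' : Conf n H Q} {d d' : ℕ}
    (h : Go M x k k' d) (hd : d ≤ d') : Go M x k k' d' := by
  obtain ⟨t, c, h0, h1, h2, h3, h4⟩ := h
  exact ⟨t, c, h0, h1, h2, h3.trans hd, h4.trans hd⟩

/-- one more step at the end -/
theorem Go.tail {n H : ℕ} {Q : Type} {M : Machine n H Q} {x : Fin n → ℤ} {k k' k'' : Conf n H Q} {d e : ℕ}
    (h : Go M x k k' d) (ho : M.out k' = none) (hk : M.next k' (fun a => x (k'.2 a)) = k'')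
    (he : ∑ a : Fin H, cdist (k''.2 a) (k'.2 a) ≤ e) (he1 : 1 ≤ e) : Go M x k k'' (d + e) := by
  obtain ⟨t, c, h0, h1, h2, h3, h4⟩ := h
  refine ⟨t + 1, fun u => if u ≤ t then c u else k'', ?_, ?_, ?_, ?_, by omega⟩
  · simpa using h0
  · simp
  · intro u hu
    rcases Nat.lt_or_ge u t with hut | hut
    · have e1 : u ≤ t := hut.le
      have e2 : u + 1 ≤ t := hut
      simp only [e1, e2, if_true]
      exact h2 u hut
    · have e : u = t := by omega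
      subst e
      simp only [le_refl, if_true, Nat.not_succ_le_self, if_false]
      rw [h1]
      exact ⟨ho, hk.symm⟩
  · unfold travel at h3 ⊢
    rw [sum_range_succ]
    have e1 : ∑ u ∈ range t, ∑ a : Fin H, cdist (((if u + 1 ≤ t then c (u + 1) else k'')).2 a)
        ((if u ≤ t then c u else k'').2 a) = ∑ u ∈ range t, ∑ a : Fin H, cdist ((c (u + 1)).2 a) ((c u).2 a) := by
      refine sum_congr rfl fun u hu => ?_
      have hut := mem_range.1 hu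
      have e1 : u ≤ t := hut.le
      have e2 : u + 1 ≤ t := hut
      simp only [e1, e2, if_true]
    have e2 : ∑ a : Fin H, cdist (((if t + 1 ≤ t then c (t + 1) else k'')).2 a)
        ((if t ≤ t then c t else k'').2 a) = ∑ a : Fin H, cdist (k''.2 a) (k'.2 a) := by
      simp only [le_refl, if_true, Nat.not_succ_le_self, if_false, h1]
    rw [e1, e2]
    exact Nat.add_le_add h3 he

/-- the end of a computation -/
theorem Go.final {n H : ℕ} {Q : Type} {M : Machine n H Q} {x : Fin n → ℤ} {k : Conf n H Q} {d : ℕ}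
    (h : Go M x M.start k d) {b : Bool} (ho : M.out k = some b) (hb : b = true ↔ Sol x) :
    M.Correct x ∧ travel (M.run x) (M.time x) ≤ d ∧ M.time x ≤ d := by
  obtain ⟨t, c, h0, h1, h2, h3, h4⟩ := h
  have hc : ∀ u, u ≤ t → c u = M.run x u := by
    intro u
    induction u with
    | zero => intro _; exact h0
    | succ u ih =>
      intro hu
      rw [(h2 u (by omega)).2, ih (by omega)]
      rfl
  have hT : M.time x = t := by
    unfold Machine.time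
    refine le_antisymm (Nat.sInf_le ?_) (le_csInf ⟨t, ?_⟩ ?_)
    · show (M.out (M.run x t)).isSome
      rw [← hc t le_rfl, h1, ho]
      rfl
    · show (M.out (M.run x t)).isSome
      rw [← hc t le_rfl, h1, ho]
      rfl
    · intro u hu
      by_contra hlt
      push Not at hlt
      have h5 : (M.out (M.run x u)).isSome := hu
      rw [← hc u hlt.le, (h2 u hlt).1] at h5
      exact absurd h5 (by simp)
  refine ⟨⟨b, ?_, hb⟩, ?_, by rw [hT]; exact h4⟩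
  · rw [hT, ← hc t le_rfl, h1, ho]
  · rw [hT]
    refine le_trans (le_of_eq ?_) h3
    unfold travel
    refine sum_congr rfl fun u hu => ?_
    have := mem_range.1 hu
    rw [hc u (by omega), hc (u + 1) (by omega)]

end Pool.Agent.TP97
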