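import Pool.Agent.TP97.Core
import Pool.Agent.TS42.Final

/-!
# TP97/Num: two pointers, final inequalities

`m = n / 20480`, windows of travel `2048 m`, `P = D / (2048 m) + 1` windows.
-/

set_option autoImplicit false

namespace Pool.Agent.TP97

open Finset Pool.Agent.TS42

theorem log3 : Real.logb 2 3 ≤ 8 / 5 := by
  have h1 : Real.logb 2 (3 ^ 5) ≤ Real.logb 2 (2 ^ 8) :=
    Real.logb_le_logb_of_le (by norm_num) (by norm_num) (by norm_num)
  rw [Real.logb_pow, Real.logb_pow, Real.logb_self_eq_one (by norm_num)] at h1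
  push_cast at h1
  linarith

open Classical in
theorem two_bound {Q : Type} [Fintype Q] {n m : ℕ} (hm : 0 < m) (S D : ℕ) (hn : 20480 ≤ n)
    (hmn : m = n / 20480) (hS : 1 ≤ S) (hQ : Fintype.card Q ≤ 2 ^ S) (M : NMachine n 2 Q)
    (hbig : 3 * (noinst m).card ≤ 4 * ((noinst m).filter (fun t =>
      ∃ T c, M.Comp (arr n hm t.1 t.2.1 t.2.2) T c ∧ travel c T ≤ D)).card)
    (hsound : ∀ x y z, M.Accepts (arr n hm x y z) → ∀ j, z j (x j) (y j) = false) :
    (n : ℝ) ^ 2 ≤ 5000000 * ((D : ℝ) + n) * (S + 2 * Real.logb 2 n) := by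
  have hl : 0 < 2048 * m := by omega
  obtain ⟨P, hPd⟩ : ∃ P : ℕ, P = D / (2048 * m) + 1 := ⟨_, rfl⟩
  have hDP : D < P * (2048 * m) := by
    rw [hPd, add_mul, one_mul]
    exact Nat.lt_div_mul_add hl
  have key := two_core hm D P hDP M hbig hsound
  have hn0 : (0 : ℝ) < n := by
    have : 0 < n := by omega
    exact_mod_cast this
  obtain ⟨y, hy⟩ : ∃ y : ℝ, y = Real.logb 2 n := ⟨_, rfl⟩
  have hny : (n : ℝ) = (2 : ℝ) ^ y := by
    rw [hy, Real.rpow_logb (by norm_num) (by norm_num) hn0]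
  have hy14 : 14 ≤ y := by
    rw [hy, Real.le_logb_iff_rpow_le (by norm_num) hn0]
    have h1 : ((2 : ℝ) ^ (14 : ℝ)) = ((2 ^ 14 : ℕ) : ℝ) := by norm_num
    rw [h1]
    have h2 : 2 ^ 14 ≤ n := by omega
    exact_mod_cast h2
  rw [← hy]
  have hS1 : (1 : ℝ) ≤ S := by exact_mod_cast hS
  obtain ⟨κ, hκ⟩ : ∃ κ : ℝ, κ = (S : ℝ) + 2 * y := ⟨_, rfl⟩
  rw [← hκ]
  have hκ29 : 29 ≤ κ := by rw [hκ]; linarith
  obtain ⟨K, hK⟩ : ∃ K : ℝ, K = (Fintype.card (Conf n 2 Q) : ℝ) := ⟨_, rfl⟩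
  rw [← hK] at key
  have hQ0 : 0 < Fintype.card Q := Fintype.card_pos_iff.2 ⟨M.start.1⟩
  have ecard : Fintype.card (Conf n 2 Q) = Fintype.card Q * n ^ 2 := by
    simp [Conf]
  have hK0 : 0 < K := by
    rw [hK, ecard]
    have : 0 < Fintype.card Q * n ^ 2 := Nat.mul_pos hQ0 (by positivity)
    exact_mod_cast this
  have hKκ : K ≤ (2 : ℝ) ^ κ := by
    have e1 : (2 : ℝ) ^ κ = (2 : ℝ) ^ S * (n : ℝ) ^ 2 := by
      rw [hκ, Real.rpow_add (by norm_num), Real.rpow_natCast, mul_comm (2 : ℝ) y,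
        Real.rpow_mul (by norm_num), ← hny]
      norm_num
    rw [e1, hK, ecard]
    push_cast
    refine mul_le_mul_of_nonneg_right ?_ (by positivity)
    exact_mod_cast hQ
  have hlogK : Real.logb 2 K ≤ κ := by
    have := Real.logb_le_logb_of_le (b := 2) (by norm_num) hK0 hKκ
    rwa [Real.logb_rpow (by norm_num) (by norm_num)] at this
  have h3 := log3
  have h30 : 0 ≤ Real.logb 2 3 := Real.logb_nonneg (by norm_num) (by norm_num)
  have hlog := Real.logb_le_logb_of_le (b := 2) (by norm_num) (by positivity) key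
  rw [Real.logb_mul (by norm_num) (by positivity), Real.logb_mul (by positivity) (by positivity),
    Real.logb_mul (by norm_num) (by positivity), Real.logb_mul (by positivity) (by positivity),
    Real.logb_pow, Real.logb_pow, Real.logb_pow, Real.logb_pow] at hlog
  have h4 : Real.logb 2 4 = 2 := by
    rw [show (4 : ℝ) = 2 ^ (2 : ℝ) by norm_num, Real.logb_rpow (by norm_num) (by norm_num)]
  rw [h4] at hlog
  push_cast at hlog
  have hP1 : (1 : ℝ) ≤ P := by
    have : 1 ≤ P := by rw [hPd]; exact Nat.le_add_left 1 _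
    exact_mod_cast this
  have hm0 : (0 : ℝ) ≤ m := Nat.cast_nonneg m
  have a1 : (m : ℝ) * Real.logb 2 3 ≤ m * (8 / 5) := mul_le_mul_of_nonneg_left h3 hm0
  have a2 : (P : ℝ) * Real.logb 2 3 ≤ P * (8 / 5) := mul_le_mul_of_nonneg_left h3 (by linarith)
  have a3 : ((P : ℝ) + 1) * Real.logb 2 K ≤ (P + 1) * κ := mul_le_mul_of_nonneg_left hlogK (by linarith)
  have a4 : (1 : ℝ) * κ ≤ P * κ := mul_le_mul_of_nonneg_right hP1 (by linarith)
  have a5 : (P : ℝ) * 29 ≤ P * κ := mul_le_mul_of_nonneg_left hκ29 (by linarith)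
  have hmP : (m : ℝ) ≤ 6 * (P * κ) := by linarith
  have hmn2 : 2048 * m ≤ n := by omega
  have hPD : (P : ℝ) * (2048 * m) ≤ D + n := by
    have h1 : P * (2048 * m) ≤ D + n := by
      rw [hPd, add_mul, one_mul]
      have := Nat.div_mul_le_self D (2048 * m)
      omega
    exact_mod_cast h1
  have hnm : (n : ℝ) ≤ 40960 * m := by
    have h1 : n ≤ 40960 * m := by omega
    exact_mod_cast h1
  have b1 : 2048 * (m : ℝ) ^ 2 ≤ 6 * κ * (D + n) := by
    calc 2048 * (m : ℝ) ^ 2 = m * (2048 * m) := by ring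
      _ ≤ (6 * (P * κ)) * (2048 * m) := mul_le_mul_of_nonneg_right hmP (by positivity)
      _ = 6 * κ * (P * (2048 * m)) := by ring
      _ ≤ 6 * κ * (D + n) := mul_le_mul_of_nonneg_left hPD (by linarith)
  have b2 : (n : ℝ) ^ 2 ≤ 1677721600 * (m : ℝ) ^ 2 := by
    calc (n : ℝ) ^ 2 ≤ (40960 * m) ^ 2 := pow_le_pow_left₀ hn0.le hnm 2
      _ = 1677721600 * (m : ℝ) ^ 2 := by ring
  have b3 : 0 ≤ κ * ((D : ℝ) + n) := mul_nonneg (by linarith) (by positivity)
  nlinarith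

theorem two_small (n S : ℕ) (D : ℝ) (hD : 0 ≤ D) (hn : 2 ≤ n) (hn' : n < 20480) (hS : 1 ≤ S) :
    (n : ℝ) ^ 2 ≤ 5000000 * (D + n) * (S + 2 * Real.logb 2 n) := by
  have h1 : (2 : ℝ) ≤ n := by exact_mod_cast hn
  have h2 : (n : ℝ) ≤ 20480 := by exact_mod_cast hn'.le
  have h3 : (1 : ℝ) ≤ S := by exact_mod_cast hS
  have h4 : 0 ≤ Real.logb 2 n := Real.logb_nonneg (by norm_num) (by linarith)
  have h5 : (0 : ℝ) ≤ D + n := by linarith
  calc (n : ℝ) ^ 2 ≤ 5000000 * (n : ℝ) := by nlinarith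
    _ ≤ 5000000 * (D + n) := by linarith
    _ ≤ 5000000 * (D + n) * (S + 2 * Real.logb 2 n) :=
        le_mul_of_one_le_right (by linarith) (by linarith)

/-- two pointers, nondeterministic machines -/
theorem two_N (n S : ℕ) (Q : Type) [Fintype Q] (hn : 2 ≤ n) (hS : 1 ≤ S)
    (hQ : Fintype.card Q ≤ 2 ^ S) (M : NMachine n 2 Q) (T D : ℕ) (hM : M.Certifies T D) :
    (n : ℝ) ^ 2 ≤ 5000000 * ((D : ℝ) + n) * (S + 2 * Real.logb 2 n) := by
  classical
  rcases Nat.lt_or_ge n 20480 with h | h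
  · exact two_small n S D (Nat.cast_nonneg D) hn h hS
  have hm : 0 < n / 20480 := by omega
  have h1 : 5 * (4096 * (n / 20480)) ≤ n := by omega
  have h2 : n ≤ 10 * (4096 * (n / 20480)) := by omega
  refine two_bound hm S D h rfl hS hQ M ?_ ?_
  · have : ((noinst (n / 20480)).filter (fun t =>
      ∃ T c, M.Comp (arr n hm t.1 t.2.1 t.2.2) T c ∧ travel c T ≤ D)) = noinst (n / 20480) := by
      refine filter_true_of_mem fun t ht => ?_
      have ht' : ∀ j, t.2.2 j (t.1 j) (t.2.1 j) = false := (mem_filter.1 ht).2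
      obtain ⟨T', _, c, hc, hD⟩ := (hM (arr n hm t.1 t.2.1 t.2.2) (arr_inp h1 h2)).2 (by
        rw [arr_sol h1 h2]
        rintro ⟨j, hj⟩
        rw [ht' j] at hj
        exact absurd hj (by simp))
      exact ⟨T', c, hc, hD⟩
    rw [this]
    omega
  · intro x y z hacc j
    have h3 := (hM (arr n hm x y z) (arr_inp h1 h2)).1 hacc
    rw [arr_sol h1 h2] at h3
    by_contra hc
    exact h3 ⟨j, by simpa using hc⟩

/-- two pointers, zero error randomised algorithms -/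
theorem two_V (n S : ℕ) (Q : Type) [Fintype Q] (hn : 2 ≤ n) (hS : 1 ≤ S)
    (hQ : Fintype.card Q ≤ 2 ^ S) (A : LasVegas n 2 Q) (T D : ℝ) (hA : A.Solves T D) :
    (n : ℝ) ^ 2 ≤ 20000000 * (D + n) * (S + 2 * Real.logb 2 n) := by
  classical
  obtain ⟨_, hD0⟩ := solves_nonneg hn hA
  have hn1 : (1 : ℝ) ≤ n := by exact_mod_cast (by omega : 1 ≤ n)
  have hlog : 0 ≤ Real.logb 2 n := Real.logb_nonneg (by norm_num) hn1
  have hκ0 : (0 : ℝ) ≤ (S : ℝ) + 2 * Real.logb 2 n := by positivity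
  rcases Nat.lt_or_ge n 20480 with h | h
  · refine (two_small n S D hD0 hn h hS).trans ?_
    have : (0 : ℝ) ≤ (D + n) * (S + 2 * Real.logb 2 n) := mul_nonneg (by linarith) hκ0
    nlinarith
  have hm : 0 < n / 20480 := by omega
  have h1 : 5 * (4096 * (n / 20480)) ≤ n := by omega
  have h2 : n ≤ 10 * (4096 * (n / 20480)) := by omega
  obtain ⟨C, hC1, hC2⟩ := floor_aux D hD0
  obtain ⟨ω, hω⟩ := avg A.p A.p_nonneg A.p_sum (noinst (n / 20480))
    (fun ω t => travel ((A.M ω).run (arr n hm t.1 t.2.1 t.2.2)) ((A.M ω).time (arr n hm t.1 t.2.1 t.2.2)))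
    D (fun t _ => (hA _ (arr_inp h1 h2)).2.2) C hC1
  have h3 := two_bound hm S C h rfl hS hQ (A.M ω).toN (hω.trans (Nat.mul_le_mul_left 4
    (card_le_card fun t ht => by
      rw [mem_filter] at ht ⊢
      have ht' : ∀ j, t.2.2 j (t.1 j) (t.2.1 j) = false := (mem_filter.1 ht.1).2
      refine ⟨ht.1, (A.M ω).time (arr n hm t.1 t.2.1 t.2.2), (A.M ω).run (arr n hm t.1 t.2.1 t.2.2),
        toN_comp _ _ ((hA _ (arr_inp h1 h2)).1 ω) ?_, ht.2⟩
      rw [arr_sol h1 h2]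
      rintro ⟨j, hj⟩
      rw [ht' j] at hj
      exact absurd hj (by simp)))) ?_
  · refine h3.trans ?_
    have h4 : 5000000 * ((C : ℝ) + n) ≤ 20000000 * (D + n) := by linarith
    exact mul_le_mul_of_nonneg_right h4 hκ0
  · intro x y z hacc j
    have h3 := toN_sound _ _ ((hA (arr n hm x y z) (arr_inp h1 h2)).1 ω) hacc
    rw [arr_sol h1 h2] at h3
    by_contra hc
    exact h3 ⟨j, by simpa using hc⟩

end Pool.Agent.TP97
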