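import Pool.Agent.TP97.Run

/-!
# TP97/Phase: one pair of blocks
-/

set_option autoImplicit false

namespace Pool.Agent.TP97

open Finset Pool.Agent.TS42

section

variable {n s N : ℕ} {hs : 0 < s} {hn : 0 < n} {hN : 0 < N} {x : Fin n → ℤ}

/-- below all sums of the blocks `i`, `j` -/
def BelS (x : Fin n → ℤ) (s i j : ℕ) (c : ℤ) : Prop :=
  ∀ p q : Fin n, (p : ℕ) / s = i → (q : ℕ) / s = j → c < x p + x q

/-- above all sums of the blocks `i`, `j` -/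
def AbvS (x : Fin n → ℤ) (s i j : ℕ) (c : ℤ) : Prop :=
  ∀ p q : Fin n, (p : ℕ) / s = i → (q : ℕ) / s = j → x p + x q < c

/-- a solution with numbers of the blocks `i`, `j` -/
def HitS (x : Fin n → ℤ) (s i j : ℕ) (c : ℤ) : Prop :=
  ∃ p q : Fin n, (p : ℕ) / s = i ∧ (q : ℕ) / s = j ∧ x p ≠ x q ∧ x p ≠ c ∧ x q ≠ c ∧ x p + x q = c

theorem ok_get (hs : 0 < s) {i : ℕ} {A : Fin s → Vl n} (hA : Ok x i A) {p : Fin n} (hp : (p : ℕ) / s = i) :
    ∃ u : Fin s, i * s + (u : ℕ) < n ∧ dec n (A u) = x p := by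
  have hdm : i * s + (p : ℕ) % s = p := by
    have := Nat.div_add_mod' (p : ℕ) s
    rw [hp] at this
    exact this
  have hlt : i * s + (p : ℕ) % s < n := by rw [hdm]; exact p.2
  refine ⟨⟨(p : ℕ) % s, Nat.mod_lt _ hs⟩, hlt, ?_⟩
  rw [hA ⟨(p : ℕ) % s, Nat.mod_lt _ hs⟩ hlt]
  congr 1
  apply Fin.ext
  exact hdm

theorem ok_put {i : ℕ} {A : Fin s → Vl n} (hA : Ok x i A) {u : Fin s} (hu : i * s + (u : ℕ) < n) :
    ∃ p : Fin n, (p : ℕ) / s = i ∧ dec n (A u) = x p := by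
  refine ⟨⟨i * s + (u : ℕ), hu⟩, ?_, hA u hu⟩
  show (i * s + (u : ℕ)) / s = i
  have hus := u.2
  have hs : 0 < s := lt_of_le_of_lt (Nat.zero_le _) hus
  rw [Nat.add_comm, Nat.add_mul_div_right _ _ hs, Nat.div_eq_of_lt hus, zero_add]

theorem bel_iff (hs : 0 < s) {i j : ℕ} {A B : Fin s → Vl n} (hA : Ok x i A) (hB : Ok x j B) (c : ℤ) :
    Bel i j A B c ↔ BelS x s i j c := by
  constructor
  · intro h p q hp hq
    obtain ⟨u, hu, e1⟩ := ok_get hs hA hp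
    obtain ⟨v, hv, e2⟩ := ok_get hs hB hq
    rw [← e1, ← e2]
    exact h u v hu hv
  · intro h u v hu hv
    obtain ⟨p, hp, e1⟩ := ok_put hA hu
    obtain ⟨q, hq, e2⟩ := ok_put hB hv
    rw [e1, e2]
    exact h p q hp hq

theorem abv_iff (hs : 0 < s) {i j : ℕ} {A B : Fin s → Vl n} (hA : Ok x i A) (hB : Ok x j B) (c : ℤ) :
    Abv i j A B c ↔ AbvS x s i j c := by
  constructor
  · intro h p q hp hq
    obtain ⟨u, hu, e1⟩ := ok_get hs hA hp
    obtain ⟨v, hv, e2⟩ := ok_get hs hB hq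
    rw [← e1, ← e2]
    exact h u v hu hv
  · intro h u v hu hv
    obtain ⟨p, hp, e1⟩ := ok_put hA hu
    obtain ⟨q, hq, e2⟩ := ok_put hB hv
    rw [e1, e2]
    exact h p q hp hq

theorem hit_iff (hs : 0 < s) {i j : ℕ} {A B : Fin s → Vl n} (hA : Ok x i A) (hB : Ok x j B) (c : ℤ) :
    Hit i j A B c ↔ HitS x s i j c := by
  constructor
  · rintro ⟨u, v, hu, hv, h1, h2, h3, h4⟩
    obtain ⟨p, hp, e1⟩ := ok_put hA hu
    obtain ⟨q, hq, e2⟩ := ok_put hB hv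
    rw [e1, e2] at h1 h4
    rw [e1] at h2
    rw [e2] at h3
    exact ⟨p, q, hp, hq, h1, h2, h3, h4⟩
  · rintro ⟨p, q, hp, hq, h1, h2, h3, h4⟩
    obtain ⟨u, hu, e1⟩ := ok_get hs hA hp
    obtain ⟨v, hv, e2⟩ := ok_get hs hB hq
    refine ⟨u, v, hu, hv, ?_, ?_, ?_, ?_⟩
    · rw [e1, e2]; exact h1
    · rw [e1]; exact h2
    · rw [e2]; exact h3
    · rw [e1, e2]; exact h4

open Classical in
/-- the number of cells in the range of the blocks `i`, `j` -/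
noncomputable def Rg (x : Fin n → ℤ) (s i j : ℕ) : ℕ :=
  (univ.filter fun r : Fin n => ¬ BelS x s i j (x r) ∧ ¬ AbvS x s i j (x r)).card

theorem range_card {i j : ℕ} {l q : Fin n} (h1 : ∀ r : Fin n, l < r → r ≤ q → ¬ BelS x s i j (x r))
    (h2 : ∀ r : Fin n, r < q → ¬ AbvS x s i j (x r)) : (q : ℕ) - (l : ℕ) ≤ Rg x s i j + 1 := by
  classical
  have h3 : (Finset.Ioo l q).card ≤ Rg x s i j := by
    unfold Rg
    refine card_le_card fun r hr => ?_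
    rw [mem_Ioo] at hr
    rw [mem_filter]
    exact ⟨mem_univ _, h1 r hr.1 hr.2.le, h2 r hr.2⟩
  rw [Fin.card_Ioo] at h3
  omega

/-- one pair of blocks -/
theorem phase (hx : Inp n x) (k : Conf n 2 (St n s N)) (i j : Fin N) (hi : (i : ℕ) * s < n)
    (hj : (j : ℕ) * s < n) (A B : Fin s → Vl n) (hA : Ok x i A) (q : Fin n) (d : ℕ)
    (hq : ∀ r : Fin n, r < q → ¬ AbvS x s i j (x r))
    (hgo : Go (mach hs hn hN) x k (cf 1 i j A B ⟨(j : ℕ) * s, hj⟩ q) d) :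
    (∃ k' : Conf n 2 (St n s N), Sol x ∧ (mach hs hn hN).out k' = some true ∧
      Go (mach hs hn hN) x k k' (d + (s + (Rg x s i j + 3) + n))) ∨
    (∃ (B' : Fin s → Vl n) (p' q' : Fin n), Ok x j B' ∧ (p' : ℕ) / s = j ∧ q ≤ q' ∧
      ¬ ((q' : ℕ) + 1 < n ∧ ¬ Abv i j A B' (x q')) ∧ ¬ Hit i j A B' (x q') ∧
      (∀ r : Fin n, r < q' → ¬ AbvS x s i j (x r)) ∧ (∀ r : Fin n, ¬ HitS x s i j (x r)) ∧
      Go (mach hs hn hN) x k (cf 3 i j A B' p' q')
        (d + ((p' : ℕ) - (j : ℕ) * s) + 2 * (Rg x s i j + 2) + ((q' : ℕ) - (q : ℕ)))) := by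
  obtain ⟨B', p', hp', hpp, hB', hg1⟩ := load_B (hs := hs) (hn := hn) (hN := hN) hx.2 k i j A q
    (n - (j : ℕ) * s) B ⟨(j : ℕ) * s, hj⟩ d (by show (j : ℕ) * s + (n - (j : ℕ) * s) = n; omega)
    (Nat.mul_div_cancel _ hs) (fun u hu hlt => by
      have h1 : (j : ℕ) * s + (u : ℕ) < (j : ℕ) * s := hlt
      omega) hgo
  obtain ⟨l, hl1, hl2, hl3, hg2⟩ := back k i j A B' p' _ q _ rfl hg1
  have hbel : ∀ c, Bel i j A B' c ↔ BelS x s i j c := bel_iff hs hA hB'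
  have habv : ∀ c, Abv i j A B' c ↔ AbvS x s i j c := abv_iff hs hA hB'
  have hhit : ∀ c, Hit i j A B' c ↔ HitS x s i j c := hit_iff hs hA hB'
  have hps : (p' : ℕ) - (j : ℕ) * s ≤ s := by
    have h1 := Nat.lt_div_mul_add (a := (p' : ℕ)) hs
    rw [hp'] at h1
    omega
  have hpj : ((⟨(j : ℕ) * s, hj⟩ : Fin n) : ℕ) = (j : ℕ) * s := rfl
  rw [hpj] at hg2
  have hrc : (q : ℕ) - (l : ℕ) ≤ Rg x s i j + 1 :=
    range_card (fun r h1 h2 h3 => hl3 r h1 h2 ((hbel _).2 h3)) hq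
  have hll : (l : ℕ) ≤ (q : ℕ) := hl1
  rcases fwd k i j A B' p' (n - (l : ℕ)) l _ (by have := l.2; omega) hg2 with ⟨r, h1, h2⟩ | ⟨q', h1, h2, h3, h4, h5⟩
  · left
    obtain ⟨a, b, _, _, e1, e2, e3, e4⟩ := (hhit _).1 h1
    refine ⟨_, ⟨a, b, r, e1, e2, e3, e4⟩, rfl, h2.mono ?_⟩
    omega
  · right
    have hqq : (q : ℕ) ≤ (q' : ℕ) := by
      by_contra hc
      push Not at hc
      rcases h2 with h2 | h2
      · have := q.2
        omega
      · exact hq q' hc ((habv _).1 h2)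
    have hlq' : (l : ℕ) ≤ (q' : ℕ) := h1
    have hblow : ∀ r : Fin n, r < l → BelS x s i j (x r) := by
      intro r hr
      rcases hl2 with h6 | h6
      · have : (r : ℕ) < (l : ℕ) := hr
        omega
      · intro a b ha hb
        exact lt_trans (hx.1 hr) ((hbel _).1 h6 a b ha hb)
    refine ⟨B', p', q', hB', hp', hqq, ?_, h3 q' h1 le_rfl, ?_, ?_, h5.mono ?_⟩
    · rintro ⟨h6, h7⟩
      rcases h2 with h2 | h2
      · omega
      · exact h7 h2
    · intro r hr h6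
      rcases lt_or_ge r l with h7 | h7
      · have h8 := hblow r h7 ⟨(i : ℕ) * s, hi⟩ ⟨(j : ℕ) * s, hj⟩ (Nat.mul_div_cancel _ hs)
          (Nat.mul_div_cancel _ hs)
        have h9 := h6 ⟨(i : ℕ) * s, hi⟩ ⟨(j : ℕ) * s, hj⟩ (Nat.mul_div_cancel _ hs)
          (Nat.mul_div_cancel _ hs)
        omega
      · exact h4 r h7 hr ((habv _).2 h6)
    · intro r h6
      rcases lt_or_ge r l with h7 | h7
      · obtain ⟨a, b, ha, hb, _, _, _, e⟩ := h6
        have h8 := hblow r h7 a b ha hb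
        omega
      · rcases le_or_gt r q' with h8 | h8
        · exact h3 r h7 h8 ((hhit _).2 h6)
        · obtain ⟨a, b, ha, hb, _, _, _, e⟩ := h6
          rcases h2 with h2 | h2
          · have h9 : (q' : ℕ) < (r : ℕ) := h8
            have := r.2
            omega
          · have h9 := (habv _).1 h2 a b ha hb
            have h10 := hx.1 h8
            omega
    · omega

end

end Pool.Agent.TP97
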