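import Pool.Agent.TP97.Mach

/-!
# TP97/Run: big steps of the block machine
-/

set_option autoImplicit false

namespace Pool.Agent.TP97

open Finset Pool.Agent.TS42

section

variable {n s N : ℕ} {hs : 0 < s} {hn : 0 < n} {hN : 0 < N} {x : Fin n → ℤ}

theorem next_eq (k : Conf n 2 (St n s N)) (v : Fin 2 → ℤ) :
    (mach hs hn hN).next k v = nxt hs k v := rfl

theorem sum_cf (μ μ' : Fin 6) (i j i' j' : Fin N) (A B A' B' : Fin s → Vl n) (p q p' q' : Fin n) :
    ∑ a : Fin 2, cdist ((cf μ i j A B p q).2 a) ((cf μ' i' j' A' B' p' q').2 a) =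
      cdist p p' + cdist q q' := by
  rw [Fin.sum_univ_two]
  rfl

theorem out_none {μ : Fin 6} (h4 : μ ≠ 4) (h5 : μ ≠ 5) (i j : Fin N) (A B : Fin s → Vl n) (p q : Fin n) :
    (mach hs hn hN).out (cf μ i j A B p q) = none := by
  show (if μ = 4 then some true else if μ = 5 then some false else none) = none
  rw [if_neg h4, if_neg h5]

/-- the buffer holds the block `i` -/
def Ok (x : Fin n → ℤ) (i : ℕ) (A : Fin s → Vl n) : Prop :=
  ∀ (u : Fin s) (h : i * s + (u : ℕ) < n), dec n (A u) = x ⟨i * s + (u : ℕ), h⟩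

theorem upd_ok (hx : ∀ p, |x p| ≤ (n : ℤ) ^ 3) {i : ℕ} {A : Fin s → Vl n} {p : Fin n}
    (hp : (p : ℕ) / s = i) (hA : ∀ (u : Fin s) (h : i * s + (u : ℕ) < n), i * s + (u : ℕ) < p →
      dec n (A u) = x ⟨i * s + (u : ℕ), h⟩) :
    ∀ (u : Fin s) (h : i * s + (u : ℕ) < n), i * s + (u : ℕ) < (p : ℕ) + 1 →
      dec n (upd hs A p (x p) u) = x ⟨i * s + (u : ℕ), h⟩ := by
  intro u h hu
  have hdm : i * s + (p : ℕ) % s = p := by
    have := Nat.div_add_mod' (p : ℕ) s
    rw [hp] at this
    exact this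
  unfold upd
  by_cases hc : u = ⟨(p : ℕ) % s, Nat.mod_lt _ hs⟩
  · subst hc
    rw [Function.update_self, dec_enc (hx p)]
    congr 1
    apply Fin.ext
    exact hdm.symm
  · rw [Function.update_of_ne hc]
    refine hA u h ?_
    have hne : (u : ℕ) ≠ (p : ℕ) % s := fun e => hc (Fin.ext e)
    omega

/-- load the block `i` -/
theorem load_A (hx : ∀ p, |x p| ≤ (n : ℤ) ^ 3) (k : Conf n 2 (St n s N)) (i j : Fin N)
    (B : Fin s → Vl n) (q : Fin n) :
    ∀ (w : ℕ) (A : Fin s → Vl n) (p : Fin n) (d : ℕ), (p : ℕ) + w = n → (p : ℕ) / s = i →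
      (∀ (u : Fin s) (h : (i : ℕ) * s + (u : ℕ) < n), (i : ℕ) * s + (u : ℕ) < p →
        dec n (A u) = x ⟨(i : ℕ) * s + (u : ℕ), h⟩) →
      Go (mach hs hn hN) x k (cf 0 i j A B p q) d →
      ∃ A', Ok x i A' ∧ Go (mach hs hn hN) x k
        (cf 1 i ⟨0, hN⟩ A' B ⟨0, hn⟩ ⟨0, hn⟩) (d + (3 * n - (p : ℕ))) := by
  intro w
  induction w with
  | zero => intro A p d hw; exact absurd p.2 (by omega)
  | succ w ih =>
    intro A p d hw hp hA hgo
    have hA' := upd_ok (hs := hs) hx hp hA
    have hpn := p.2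
    have hqn := q.2
    by_cases h : (p : ℕ) + 1 < n ∧ ((p : ℕ) + 1) / s = (i : ℕ)
    · have hstep : (mach hs hn hN).next (cf 0 i j A B p q) (fun a => x ((cf 0 i j A B p q).2 a)) =
          cf 0 i j (upd hs A p (x p)) B ⟨(p : ℕ) + 1, h.1⟩ q := by
        rw [next_eq]
        unfold nxt
        rw [if_pos (show (cf 0 i j A B p q).1.1 = 0 from rfl)]
        rw [dif_pos (show ((cf 0 i j A B p q).2 0 : ℕ) + 1 < n ∧
          (((cf 0 i j A B p q).2 0 : ℕ) + 1) / s = ((cf 0 i j A B p q).1.2.1 : ℕ) from h)]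
        rfl
      have hg := hgo.tail (e := 1) (out_none (by decide) (by decide) i j A B p q) hstep (by
        rw [sum_cf]
        unfold cdist
        simp) (by omega)
      obtain ⟨A', h1, h2⟩ := ih (upd hs A p (x p)) ⟨(p : ℕ) + 1, h.1⟩ (d + 1)
        (by show (p : ℕ) + 1 + w = n; omega) h.2 hA' hg
      refine ⟨A', h1, h2.mono ?_⟩
      show d + 1 + (3 * n - ((p : ℕ) + 1)) ≤ d + (3 * n - (p : ℕ))
      omega
    · have hstep : (mach hs hn hN).next (cf 0 i j A B p q) (fun a => x ((cf 0 i j A B p q).2 a)) =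
          cf 1 i ⟨0, hN⟩ (upd hs A p (x p)) B ⟨0, hn⟩ ⟨0, hn⟩ := by
        rw [next_eq]
        unfold nxt
        rw [if_pos (show (cf 0 i j A B p q).1.1 = 0 from rfl)]
        rw [dif_neg (show ¬ (((cf 0 i j A B p q).2 0 : ℕ) + 1 < n ∧
          (((cf 0 i j A B p q).2 0 : ℕ) + 1) / s = ((cf 0 i j A B p q).1.2.1 : ℕ)) from h)]
        rfl
      have hg := hgo.tail (e := (p : ℕ) + (q : ℕ) + 1) (out_none (by decide) (by decide) i j A B p q) hstep (by
        rw [sum_cf]
        unfold cdist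
        simp) (by omega)
      refine ⟨_, ?_, hg.mono (by omega)⟩
      intro u hu
      refine hA' u hu ?_
      by_contra hc
      apply h
      have hus := u.2
      have h1 : (p : ℕ) + 1 ≤ (i : ℕ) * s + (u : ℕ) := by omega
      refine ⟨by omega, ?_⟩
      apply le_antisymm
      · have : ((p : ℕ) + 1) / s < (i : ℕ) + 1 := by
          rw [Nat.div_lt_iff_lt_mul hs, Nat.add_mul, one_mul]
          omega
        omega
      · rw [← hp]
        exact Nat.div_le_div_right (Nat.le_succ _)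

/-- load the block `j` -/
theorem load_B (hx : ∀ p, |x p| ≤ (n : ℤ) ^ 3) (k : Conf n 2 (St n s N)) (i j : Fin N)
    (A : Fin s → Vl n) (q : Fin n) :
    ∀ (w : ℕ) (B : Fin s → Vl n) (p : Fin n) (d : ℕ), (p : ℕ) + w = n → (p : ℕ) / s = j →
      (∀ (u : Fin s) (h : (j : ℕ) * s + (u : ℕ) < n), (j : ℕ) * s + (u : ℕ) < p →
        dec n (B u) = x ⟨(j : ℕ) * s + (u : ℕ), h⟩) →
      Go (mach hs hn hN) x k (cf 1 i j A B p q) d →
      ∃ (B' : Fin s → Vl n) (p' : Fin n), (p' : ℕ) / s = j ∧ p ≤ p' ∧ Ok x j B' ∧ Go (mach hs hn hN) x k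
        (cf 2 i j A B' p' q) (d + ((p' : ℕ) - (p : ℕ)) + 1) := by
  intro w
  induction w with
  | zero => intro B p d hw; exact absurd p.2 (by omega)
  | succ w ih =>
    intro B p d hw hp hB hgo
    have hB' := upd_ok (hs := hs) hx hp hB
    have hpn := p.2
    have hqn := q.2
    by_cases h : (p : ℕ) + 1 < n ∧ ((p : ℕ) + 1) / s = (j : ℕ)
    · have hstep : (mach hs hn hN).next (cf 1 i j A B p q) (fun a => x ((cf 1 i j A B p q).2 a)) =
          cf 1 i j A (upd hs B p (x p)) ⟨(p : ℕ) + 1, h.1⟩ q := by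
        rw [next_eq]
        unfold nxt
        rw [if_neg (show ¬ (cf 1 i j A B p q).1.1 = 0 from (by decide : ¬ ((1 : Fin 6) = 0))),
          if_pos (show (cf 1 i j A B p q).1.1 = 1 from rfl)]
        rw [dif_pos (show ((cf 1 i j A B p q).2 0 : ℕ) + 1 < n ∧
          (((cf 1 i j A B p q).2 0 : ℕ) + 1) / s = ((cf 1 i j A B p q).1.2.2.1 : ℕ) from h)]
        rfl
      have hg := hgo.tail (e := 1) (out_none (by decide) (by decide) i j A B p q) hstep (by
        rw [sum_cf]
        unfold cdist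
        simp) (by omega)
      obtain ⟨B', p', h0, h0', h1, h2⟩ := ih (upd hs B p (x p)) ⟨(p : ℕ) + 1, h.1⟩ (d + 1)
        (by show (p : ℕ) + 1 + w = n; omega) h.2 hB' hg
      have h3 : (p : ℕ) + 1 ≤ (p' : ℕ) := h0'
      refine ⟨B', p', h0, ?_, h1, h2.mono ?_⟩
      · show (p : ℕ) ≤ (p' : ℕ)
        omega
      · show d + 1 + ((p' : ℕ) - ((p : ℕ) + 1)) + 1 ≤ d + ((p' : ℕ) - (p : ℕ)) + 1
        omega
    · have hstep : (mach hs hn hN).next (cf 1 i j A B p q) (fun a => x ((cf 1 i j A B p q).2 a)) =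
          cf 2 i j A (upd hs B p (x p)) p q := by
        rw [next_eq]
        unfold nxt
        rw [if_neg (show ¬ (cf 1 i j A B p q).1.1 = 0 from (by decide : ¬ ((1 : Fin 6) = 0))),
          if_pos (show (cf 1 i j A B p q).1.1 = 1 from rfl)]
        rw [dif_neg (show ¬ (((cf 1 i j A B p q).2 0 : ℕ) + 1 < n ∧
          (((cf 1 i j A B p q).2 0 : ℕ) + 1) / s = ((cf 1 i j A B p q).1.2.2.1 : ℕ)) from h)]
        rfl
      have hg := hgo.tail (e := 1) (out_none (by decide) (by decide) i j A B p q) hstep (by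
        rw [sum_cf]
        unfold cdist
        simp) (by omega)
      refine ⟨_, p, hp, le_rfl, ?_, hg.mono (by omega)⟩
      intro u hu
      refine hB' u hu ?_
      by_contra hc
      apply h
      have hus := u.2
      have h1 : (p : ℕ) + 1 ≤ (j : ℕ) * s + (u : ℕ) := by omega
      refine ⟨by omega, ?_⟩
      apply le_antisymm
      · have : ((p : ℕ) + 1) / s < (j : ℕ) + 1 := by
          rw [Nat.div_lt_iff_lt_mul hs, Nat.add_mul, one_mul]
          omega
        omega
      · rw [← hp]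
        exact Nat.div_le_div_right (Nat.le_succ _)

/-- go back -/
theorem back (k : Conf n 2 (St n s N)) (i j : Fin N) (A B : Fin s → Vl n) (p : Fin n) :
    ∀ (w : ℕ) (q : Fin n) (d : ℕ), (q : ℕ) = w →
      Go (mach hs hn hN) x k (cf 2 i j A B p q) d →
      ∃ l : Fin n, l ≤ q ∧ ((l : ℕ) = 0 ∨ Bel i j A B (x l)) ∧
        (∀ r : Fin n, l < r → r ≤ q → ¬ Bel i j A B (x r)) ∧
        Go (mach hs hn hN) x k (cf 3 i j A B p l) (d + ((q : ℕ) - (l : ℕ)) + 1) := by
  intro w
  induction w with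
  | zero =>
    intro q d hq hgo
    have hstep : (mach hs hn hN).next (cf 2 i j A B p q) (fun a => x ((cf 2 i j A B p q).2 a)) =
        cf 3 i j A B p q := by
      rw [next_eq]
      unfold nxt
      rw [if_neg (show ¬ (cf 2 i j A B p q).1.1 = 0 from (by decide : ¬ ((2 : Fin 6) = 0))),
        if_neg (show ¬ (cf 2 i j A B p q).1.1 = 1 from (by decide : ¬ ((2 : Fin 6) = 1))),
        if_pos (show (cf 2 i j A B p q).1.1 = 2 from rfl)]
      rw [if_pos (Or.inl (show ((cf 2 i j A B p q).2 1 : ℕ) = 0 from hq))]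
      rfl
    have hg := hgo.tail (e := 1) (out_none (by decide) (by decide) i j A B p q) hstep (by
      rw [sum_cf]
      unfold cdist
      simp) (by omega)
    refine ⟨q, le_rfl, Or.inl hq, fun r hr hr' => absurd (lt_of_lt_of_le hr hr') (lt_irrefl _),
      hg.mono (by omega)⟩
  | succ w ih =>
    intro q d hq hgo
    by_cases h : Bel (i : ℕ) (j : ℕ) A B (x q)
    · have hstep : (mach hs hn hN).next (cf 2 i j A B p q) (fun a => x ((cf 2 i j A B p q).2 a)) =
          cf 3 i j A B p q := by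
        rw [next_eq]
        unfold nxt
        rw [if_neg (show ¬ (cf 2 i j A B p q).1.1 = 0 from (by decide : ¬ ((2 : Fin 6) = 0))),
          if_neg (show ¬ (cf 2 i j A B p q).1.1 = 1 from (by decide : ¬ ((2 : Fin 6) = 1))),
          if_pos (show (cf 2 i j A B p q).1.1 = 2 from rfl)]
        rw [if_pos (Or.inr (show Bel ((cf 2 i j A B p q).1.2.1 : ℕ) ((cf 2 i j A B p q).1.2.2.1 : ℕ)
          (cf 2 i j A B p q).1.2.2.2.1 (cf 2 i j A B p q).1.2.2.2.2 (x ((cf 2 i j A B p q).2 1)) from h))]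
        rfl
      have hg := hgo.tail (e := 1) (out_none (by decide) (by decide) i j A B p q) hstep (by
        rw [sum_cf]
        unfold cdist
        simp) (by omega)
      refine ⟨q, le_rfl, Or.inr h, fun r hr hr' => absurd (lt_of_lt_of_le hr hr') (lt_irrefl _),
        hg.mono (by omega)⟩
    · obtain ⟨q', hq'⟩ : ∃ q' : Fin n, q' = ⟨(q : ℕ) - 1, lt_of_le_of_lt (Nat.sub_le _ _) q.2⟩ :=
        ⟨_, rfl⟩
      have hq'v : (q' : ℕ) = (q : ℕ) - 1 := by rw [hq']
      have hstep : (mach hs hn hN).next (cf 2 i j A B p q) (fun a => x ((cf 2 i j A B p q).2 a)) =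
          cf 2 i j A B p q' := by
        rw [next_eq]
        unfold nxt
        rw [if_neg (show ¬ (cf 2 i j A B p q).1.1 = 0 from (by decide : ¬ ((2 : Fin 6) = 0))),
          if_neg (show ¬ (cf 2 i j A B p q).1.1 = 1 from (by decide : ¬ ((2 : Fin 6) = 1))),
          if_pos (show (cf 2 i j A B p q).1.1 = 2 from rfl)]
        have hneg : ¬ ((q : ℕ) = 0 ∨ Bel (i : ℕ) (j : ℕ) A B (x q)) := by
          rintro (h1 | h1)
          · omega
          · exact h h1
        rw [if_neg (show ¬ (((cf 2 i j A B p q).2 1 : ℕ) = 0 ∨ Bel ((cf 2 i j A B p q).1.2.1 : ℕ)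
          ((cf 2 i j A B p q).1.2.2.1 : ℕ) (cf 2 i j A B p q).1.2.2.2.1 (cf 2 i j A B p q).1.2.2.2.2
          (x ((cf 2 i j A B p q).2 1))) from hneg), hq']
        rfl
      have hg := hgo.tail (e := 1) (out_none (by decide) (by decide) i j A B p q) hstep (by
        rw [sum_cf]
        unfold cdist
        omega) (by omega)
      obtain ⟨l, h1, h2, h3, h4⟩ := ih q' (d + 1) (by omega) hg
      have h1' : (l : ℕ) ≤ (q' : ℕ) := h1
      refine ⟨l, ?_, h2, ?_, h4.mono (by omega)⟩
      · show (l : ℕ) ≤ (q : ℕ)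
        omega
      · intro r hr hr'
        rcases eq_or_lt_of_le hr' with he | hlt
        · rw [he]; exact h
        · refine h3 r hr ?_
          show (r : ℕ) ≤ (q' : ℕ)
          have : (r : ℕ) < (q : ℕ) := hlt
          omega

/-- go forward -/
theorem fwd (k : Conf n 2 (St n s N)) (i j : Fin N) (A B : Fin s → Vl n) (p : Fin n) :
    ∀ (w : ℕ) (l : Fin n) (d : ℕ), (l : ℕ) + w = n →
      Go (mach hs hn hN) x k (cf 3 i j A B p l) d →
      (∃ r : Fin n, Hit i j A B (x r) ∧
        Go (mach hs hn hN) x k (cf 4 i j A B p r) (d + (n - (l : ℕ)))) ∨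
      (∃ q : Fin n, l ≤ q ∧ ((q : ℕ) + 1 = n ∨ Abv i j A B (x q)) ∧
        (∀ r : Fin n, l ≤ r → r ≤ q → ¬ Hit i j A B (x r)) ∧
        (∀ r : Fin n, l ≤ r → r < q → ¬ Abv i j A B (x r)) ∧
        Go (mach hs hn hN) x k (cf 3 i j A B p q) (d + ((q : ℕ) - (l : ℕ)))) := by
  intro w
  induction w with
  | zero => intro l d hw; exact absurd l.2 (by omega)
  | succ w ih =>
    intro l d hw hgo
    by_cases h : Hit (i : ℕ) (j : ℕ) A B (x l)
    · left
      have hstep : (mach hs hn hN).next (cf 3 i j A B p l) (fun a => x ((cf 3 i j A B p l).2 a)) =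
          cf 4 i j A B p l := by
        rw [next_eq]
        unfold nxt
        rw [if_neg (show ¬ (cf 3 i j A B p l).1.1 = 0 from (by decide : ¬ ((3 : Fin 6) = 0))),
          if_neg (show ¬ (cf 3 i j A B p l).1.1 = 1 from (by decide : ¬ ((3 : Fin 6) = 1))),
          if_neg (show ¬ (cf 3 i j A B p l).1.1 = 2 from (by decide : ¬ ((3 : Fin 6) = 2))),
          if_pos (show (cf 3 i j A B p l).1.1 = 3 from rfl)]
        rw [if_pos (show Hit ((cf 3 i j A B p l).1.2.1 : ℕ) ((cf 3 i j A B p l).1.2.2.1 : ℕ)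
          (cf 3 i j A B p l).1.2.2.2.1 (cf 3 i j A B p l).1.2.2.2.2 (x ((cf 3 i j A B p l).2 1)) from h)]
        rfl
      have hg := hgo.tail (e := 1) (out_none (by decide) (by decide) i j A B p l) hstep (by
        rw [sum_cf]
        unfold cdist
        simp) (by omega)
      exact ⟨l, h, hg.mono (by omega)⟩
    · by_cases h' : (l : ℕ) + 1 < n ∧ ¬ Abv (i : ℕ) (j : ℕ) A B (x l)
      · obtain ⟨l', hl'⟩ : ∃ l' : Fin n, l' = ⟨(l : ℕ) + 1, h'.1⟩ := ⟨_, rfl⟩
        have hl'v : (l' : ℕ) = (l : ℕ) + 1 := by rw [hl']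
        have hstep : (mach hs hn hN).next (cf 3 i j A B p l) (fun a => x ((cf 3 i j A B p l).2 a)) =
            cf 3 i j A B p l' := by
          rw [next_eq]
          unfold nxt
          rw [if_neg (show ¬ (cf 3 i j A B p l).1.1 = 0 from (by decide : ¬ ((3 : Fin 6) = 0))),
            if_neg (show ¬ (cf 3 i j A B p l).1.1 = 1 from (by decide : ¬ ((3 : Fin 6) = 1))),
            if_neg (show ¬ (cf 3 i j A B p l).1.1 = 2 from (by decide : ¬ ((3 : Fin 6) = 2))),
            if_pos (show (cf 3 i j A B p l).1.1 = 3 from rfl)]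
          rw [if_neg (show ¬ Hit ((cf 3 i j A B p l).1.2.1 : ℕ) ((cf 3 i j A B p l).1.2.2.1 : ℕ)
            (cf 3 i j A B p l).1.2.2.2.1 (cf 3 i j A B p l).1.2.2.2.2 (x ((cf 3 i j A B p l).2 1)) from h)]
          rw [dif_pos (show ((cf 3 i j A B p l).2 1 : ℕ) + 1 < n ∧
            ¬ Abv ((cf 3 i j A B p l).1.2.1 : ℕ) ((cf 3 i j A B p l).1.2.2.1 : ℕ)
            (cf 3 i j A B p l).1.2.2.2.1 (cf 3 i j A B p l).1.2.2.2.2 (x ((cf 3 i j A B p l).2 1)) from h'), hl']
          rfl
        have hg := hgo.tail (e := 1) (out_none (by decide) (by decide) i j A B p l) hstep (by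
          rw [sum_cf]
          unfold cdist
          omega) (by omega)
        rcases ih l' (d + 1) (by omega) hg with ⟨r, h1, h2⟩ | ⟨q, h1, h2, h3, h4, h5⟩
        · exact Or.inl ⟨r, h1, h2.mono (by omega)⟩
        · right
          have h1' : (l' : ℕ) ≤ (q : ℕ) := h1
          refine ⟨q, ?_, h2, ?_, ?_, h5.mono (by omega)⟩
          · show (l : ℕ) ≤ (q : ℕ)
            omega
          · intro r hr hr'
            rcases eq_or_lt_of_le hr with he | hlt
            · rw [← he]; exact h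
            · refine h3 r ?_ hr'
              show (l' : ℕ) ≤ (r : ℕ)
              have : (l : ℕ) < (r : ℕ) := hlt
              omega
          · intro r hr hr'
            rcases eq_or_lt_of_le hr with he | hlt
            · rw [← he]; exact h'.2
            · refine h4 r ?_ hr'
              show (l' : ℕ) ≤ (r : ℕ)
              have : (l : ℕ) < (r : ℕ) := hlt
              omega
      · right
        refine ⟨l, le_rfl, ?_, ?_, ?_, hgo.mono (by omega)⟩
        · by_contra hc
          push Not at hc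
          have := l.2
          exact h' ⟨by omega, hc.2⟩
        · intro r hr hr'
          have : r = l := le_antisymm hr' hr
          rw [this]; exact h
        · intro r hr hr'
          exact absurd (lt_of_le_of_lt hr hr') (lt_irrefl _)

end

end Pool.Agent.TP97
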