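import Pool.Agent.TP97.Upper

/-!
# TP97/UpNum: the total travel and the size of the memory of the block machine
-/

set_option autoImplicit false

namespace Pool.Agent.TP97

open Finset Pool.Agent.TS42

section

variable {n s N : ℕ} {x : Fin n → ℤ}

open Classical in
/-- a number is in the range of at most `2 N` pairs of blocks -/
theorem diag_card (hx : Inp n x) (r : Fin n) :
    ((range N ×ˢ range N).filter (fun ij => ¬ BelS x s ij.1 ij.2 (x r) ∧ ¬ AbvS x s ij.1 ij.2 (x r))).card ≤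
      2 * N := by
  have hlt : ∀ i i' : ℕ, ∀ a b : Fin n, (a : ℕ) / s = i → (b : ℕ) / s = i' → i < i' → x a < x b := by
    intro i i' a b ha hb hii
    apply hx.1
    rw [Fin.lt_def]
    by_contra hc
    push Not at hc
    have := Nat.div_le_div_right (c := s) hc
    omega
  have key : ∀ i j i' j' : ℕ, i < i' → j < j' → ¬ AbvS x s i j (x r) → BelS x s i' j' (x r) := by
    intro i j i' j' h1 h2 h3 a b ha hb
    unfold AbvS at h3
    push Not at h3
    obtain ⟨p, q, hp, hq, h4⟩ := h3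
    have h5 := hlt i i' p a hp ha h1
    have h6 := hlt j j' q b hq hb h2
    omega
  have h := card_le_card_of_injOn (s := (range N ×ˢ range N).filter
      (fun ij => ¬ BelS x s ij.1 ij.2 (x r) ∧ ¬ AbvS x s ij.1 ij.2 (x r))) (t := range (2 * N))
      (fun ij => ij.1 + N - ij.2) ?_ ?_
  · rwa [card_range] at h
  · intro ij hij
    rw [mem_coe, mem_filter, mem_product, mem_range, mem_range] at hij
    rw [mem_coe, mem_range]
    show ij.1 + N - ij.2 < 2 * N
    omega
  · rintro ⟨i, j⟩ h1 ⟨i', j'⟩ h2 h3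
    rw [mem_coe, mem_filter, mem_product, mem_range, mem_range] at h1 h2
    have e : i + N - j = i' + N - j' := h3
    have h1' : (i < N ∧ j < N) ∧ ¬ BelS x s i j (x r) ∧ ¬ AbvS x s i j (x r) := h1
    have h2' : (i' < N ∧ j' < N) ∧ ¬ BelS x s i' j' (x r) ∧ ¬ AbvS x s i' j' (x r) := h2
    rcases Nat.lt_trichotomy i i' with h4 | h4 | h4
    · exact absurd (key i j i' j' h4 (by omega) h1'.2.2) h2'.2.1
    · have : j = j' := by omega
      rw [h4, this]
    · exact absurd (key i' j' i j h4 (by omega) h2'.2.2) h1'.2.1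

theorem sum_Rg (hx : Inp n x) : ∑ i ∈ range N, ∑ j ∈ range N, Rg x s i j ≤ 2 * N * n := by
  classical
  have h1 : ∑ i ∈ range N, ∑ j ∈ range N, Rg x s i j =
      ∑ r : Fin n, ((range N ×ˢ range N).filter
        (fun ij => ¬ BelS x s ij.1 ij.2 (x r) ∧ ¬ AbvS x s ij.1 ij.2 (x r))).card := by
    rw [← sum_product']
    unfold Rg
    simp only [card_filter]
    rw [sum_comm]
  rw [h1]
  calc _ ≤ ∑ _r : Fin n, 2 * N := sum_le_sum fun r _ => diag_card hx r
    _ = 2 * N * n := by simp [mul_comm]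

theorem Fc_le (hx : Inp n x) (hNn : N ≤ n) (hNs : N * s ≤ 2 * n) : Fc x s N N ≤ 15 * (n * N) := by
  have h1 : Fc x s N N = 5 * (n * N) + (2 * (∑ i ∈ range N, ∑ j ∈ range N, Rg x s i j) +
      4 * (N * N) + N * (N * s)) := by
    unfold Fc Gc
    simp only [sum_add_distrib, ← mul_sum, sum_const, card_range, smul_eq_mul]
    ring
  rw [h1]
  have h2 := sum_Rg (N := N) (s := s) hx
  have h3 : N * N ≤ n * N := Nat.mul_le_mul_right N hNn
  have h4 : N * (N * s) ≤ N * (2 * n) := Nat.mul_le_mul_left N hNs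
  have h5 : 2 * N * n = 2 * (n * N) := by ring
  have h6 : N * (2 * n) = 2 * (n * N) := by ring
  omega

theorem card_St (n s N : ℕ) : Fintype.card (St n s N) = 6 * (N * (N * ((2 * n ^ 3 + 1) ^ s * (2 * n ^ 3 + 1) ^ s))) := by
  simp [St, Vl]

/-- the block machine -/
theorem upper (n s : ℕ) (hs : 0 < s) (hsn : s ≤ n) (hn2 : 2 ≤ n) :
    ∃ (Q : Type) (_ : Fintype Q) (M : Machine n 2 Q),
      Fintype.card Q ≤ 2 ^ (13 * s * (Nat.log 2 n + 1)) ∧
        ∀ x : Fin n → ℤ, Inp n x → M.Correct x ∧ s * M.time x ≤ 30 * n ^ 2 ∧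
          s * travel (M.run x) (M.time x) ≤ 30 * n ^ 2 := by
  obtain ⟨N, hNd⟩ : ∃ N, N = (n - 1) / s + 1 := ⟨_, rfl⟩
  have hn : 0 < n := by omega
  have hN : 0 < N := by rw [hNd]; exact Nat.succ_pos _
  have h1 : (N - 1) * s ≤ n - 1 := by
    rw [hNd, Nat.add_sub_cancel]
    exact Nat.div_mul_le_self _ _
  have hcov : n ≤ N * s := by
    have := Nat.lt_div_mul_add (a := n - 1) hs
    rw [hNd, Nat.add_mul, one_mul]
    omega
  have hblk : ∀ i : ℕ, i < N → i * s < n := by
    intro i hi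
    have : i * s ≤ (N - 1) * s := Nat.mul_le_mul_right s (by omega)
    omega
  have hNs : N * s ≤ 2 * n := by
    have : N * s = (N - 1) * s + s := by
      obtain ⟨N', rfl⟩ : ∃ N', N = N' + 1 := ⟨N - 1, by omega⟩
      rw [Nat.add_sub_cancel, Nat.add_mul, one_mul]
    omega
  have hNn : N ≤ n := by
    rw [hNd]
    have := Nat.div_le_self (n - 1) s
    omega
  refine ⟨St n s N, inferInstance, mach hs hn hN, ?_, ?_⟩
  · rw [card_St]
    obtain ⟨L, hL⟩ : ∃ L, L = Nat.log 2 n + 1 := ⟨_, rfl⟩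
    rw [← hL]
    have hL1 : 1 ≤ L := by omega
    have hnL : n < 2 ^ L := by
      rw [hL]
      exact Nat.lt_pow_succ_log_self (by norm_num) n
    have hN2 : N ≤ 2 ^ L := by omega
    have h3 : 2 * n ^ 3 + 1 ≤ 2 ^ (3 * L + 1) := by
      have h4 : (n + 1) ^ 3 ≤ (2 ^ L) ^ 3 := Nat.pow_le_pow_left hnL 3
      have h5 : 2 ^ (3 * L + 1) = 2 * (2 ^ L) ^ 3 := by
        rw [pow_succ, ← pow_mul, mul_comm L 3, mul_comm]
      have h6 : (n + 1) ^ 3 = n ^ 3 + 3 * n ^ 2 + 3 * n + 1 := by ring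
      rw [h5]
      omega
    have h7 : (2 * n ^ 3 + 1) ^ s ≤ 2 ^ ((3 * L + 1) * s) := by
      rw [pow_mul]
      exact Nat.pow_le_pow_left h3 s
    calc 6 * (N * (N * ((2 * n ^ 3 + 1) ^ s * (2 * n ^ 3 + 1) ^ s)))
        ≤ 2 ^ 3 * (2 ^ L * (2 ^ L * (2 ^ ((3 * L + 1) * s) * 2 ^ ((3 * L + 1) * s)))) :=
          Nat.mul_le_mul (by norm_num) (Nat.mul_le_mul hN2 (Nat.mul_le_mul hN2 (Nat.mul_le_mul h7 h7)))
      _ = 2 ^ (3 + (L + (L + ((3 * L + 1) * s + (3 * L + 1) * s)))) := by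
          rw [pow_add, pow_add, pow_add, pow_add]
      _ ≤ 2 ^ (13 * s * L) := by
          refine Nat.pow_le_pow_right (by norm_num) ?_
          have a1 : 1 * 1 ≤ s * L := Nat.mul_le_mul hs hL1
          have a2 : 1 * L ≤ s * L := Nat.mul_le_mul_right L hs
          have a3 : s * 1 ≤ s * L := Nat.mul_le_mul_left s hL1
          have e1 : (3 * L + 1) * s = 3 * (s * L) + s := by ring
          have e2 : 13 * s * L = 13 * (s * L) := by ring
          rw [e1, e2]
          omega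
  · intro x hx
    obtain ⟨h2, h3, h5⟩ := mach_main (hs := hs) (hn := hn) (hN := hN) hx hblk hcov
    have h4 := Fc_le (s := s) hx hNn hNs
    have h6 : s * Fc x s N N ≤ 30 * n ^ 2 := by
      calc s * Fc x s N N ≤ s * (15 * (n * N)) := Nat.mul_le_mul_left s h4
        _ = 15 * n * (N * s) := by ring
        _ ≤ 15 * n * (2 * n) := Nat.mul_le_mul_left _ hNs
        _ = 30 * n ^ 2 := by ring
    exact ⟨h2, (Nat.mul_le_mul_left s h5).trans h6, (Nat.mul_le_mul_left s h3).trans h6⟩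

end

end Pool.Agent.TP97
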