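import Pool.Agent.TP97.Phase

/-!
# TP97/Upper: the block machine is correct; its time and travel
-/

set_option autoImplicit false

namespace Pool.Agent.TP97

open Finset Pool.Agent.TS42

section

variable {n s N : ℕ} {hs : 0 < s} {hn : 0 < n} {hN : 0 < N} {x : Fin n → ℤ}

/-- cost of the blocks `j' < j` -/
noncomputable def Gc (x : Fin n → ℤ) (s i j : ℕ) : ℕ := ∑ j' ∈ range j, (2 * (Rg x s i j' + 2) + s)

/-- cost of the rows `i' < i` -/
noncomputable def Fc (x : Fin n → ℤ) (s N i : ℕ) : ℕ := ∑ i' ∈ range i, (5 * n + Gc x s i' N)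

theorem Gc_succ (i j : ℕ) : Gc x s i (j + 1) = Gc x s i j + (2 * (Rg x s i j + 2) + s) := by
  unfold Gc; rw [sum_range_succ]

theorem Gc_mono (i : ℕ) {j j' : ℕ} (h : j ≤ j') : Gc x s i j ≤ Gc x s i j' := by
  unfold Gc
  exact sum_le_sum_of_subset (range_mono h)

theorem Fc_succ (i : ℕ) : Fc x s N (i + 1) = Fc x s N i + (5 * n + Gc x s i N) := by
  unfold Fc; rw [sum_range_succ]

theorem Fc_mono {i i' : ℕ} (h : i ≤ i') : Fc x s N i ≤ Fc x s N i' := by
  unfold Fc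
  exact sum_le_sum_of_subset (range_mono h)

theorem next_three_j (i j : Fin N) (A B : Fin s → Vl n) (p q : Fin n)
    (h1 : ¬ ((q : ℕ) + 1 < n ∧ ¬ Abv i j A B (x q))) (h2 : ¬ Hit i j A B (x q))
    (h3 : (j : ℕ) + 1 < N) (h4 : ((j : ℕ) + 1) * s < n) :
    (mach hs hn hN).next (cf 3 i j A B p q) (fun a => x ((cf 3 i j A B p q).2 a)) =
      cf 1 i ⟨(j : ℕ) + 1, h3⟩ A B ⟨((j : ℕ) + 1) * s, h4⟩ q := by
  rw [next_eq]
  unfold nxt
  rw [if_neg (show ¬ (cf 3 i j A B p q).1.1 = 0 from (by decide : ¬ ((3 : Fin 6) = 0))),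
    if_neg (show ¬ (cf 3 i j A B p q).1.1 = 1 from (by decide : ¬ ((3 : Fin 6) = 1))),
    if_neg (show ¬ (cf 3 i j A B p q).1.1 = 2 from (by decide : ¬ ((3 : Fin 6) = 2))),
    if_pos (show (cf 3 i j A B p q).1.1 = 3 from rfl)]
  rw [if_neg (show ¬ Hit ((cf 3 i j A B p q).1.2.1 : ℕ) ((cf 3 i j A B p q).1.2.2.1 : ℕ)
    (cf 3 i j A B p q).1.2.2.2.1 (cf 3 i j A B p q).1.2.2.2.2 (x ((cf 3 i j A B p q).2 1)) from h2)]
  rw [dif_neg (show ¬ (((cf 3 i j A B p q).2 1 : ℕ) + 1 < n ∧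
    ¬ Abv ((cf 3 i j A B p q).1.2.1 : ℕ) ((cf 3 i j A B p q).1.2.2.1 : ℕ)
    (cf 3 i j A B p q).1.2.2.2.1 (cf 3 i j A B p q).1.2.2.2.2 (x ((cf 3 i j A B p q).2 1))) from h1)]
  rw [dif_pos (show ((cf 3 i j A B p q).1.2.2.1 : ℕ) + 1 < N ∧
    (((cf 3 i j A B p q).1.2.2.1 : ℕ) + 1) * s < n from ⟨h3, h4⟩)]
  rfl

theorem next_three_i (i j : Fin N) (A B : Fin s → Vl n) (p q : Fin n)
    (h1 : ¬ ((q : ℕ) + 1 < n ∧ ¬ Abv i j A B (x q))) (h2 : ¬ Hit i j A B (x q))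
    (hj : ¬ (j : ℕ) + 1 < N) (h3 : (i : ℕ) + 1 < N) (h4 : ((i : ℕ) + 1) * s < n) :
    (mach hs hn hN).next (cf 3 i j A B p q) (fun a => x ((cf 3 i j A B p q).2 a)) =
      cf 0 ⟨(i : ℕ) + 1, h3⟩ ⟨0, hN⟩ A B ⟨((i : ℕ) + 1) * s, h4⟩ q := by
  rw [next_eq]
  unfold nxt
  rw [if_neg (show ¬ (cf 3 i j A B p q).1.1 = 0 from (by decide : ¬ ((3 : Fin 6) = 0))),
    if_neg (show ¬ (cf 3 i j A B p q).1.1 = 1 from (by decide : ¬ ((3 : Fin 6) = 1))),
    if_neg (show ¬ (cf 3 i j A B p q).1.1 = 2 from (by decide : ¬ ((3 : Fin 6) = 2))),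
    if_pos (show (cf 3 i j A B p q).1.1 = 3 from rfl)]
  rw [if_neg (show ¬ Hit ((cf 3 i j A B p q).1.2.1 : ℕ) ((cf 3 i j A B p q).1.2.2.1 : ℕ)
    (cf 3 i j A B p q).1.2.2.2.1 (cf 3 i j A B p q).1.2.2.2.2 (x ((cf 3 i j A B p q).2 1)) from h2)]
  rw [dif_neg (show ¬ (((cf 3 i j A B p q).2 1 : ℕ) + 1 < n ∧
    ¬ Abv ((cf 3 i j A B p q).1.2.1 : ℕ) ((cf 3 i j A B p q).1.2.2.1 : ℕ)
    (cf 3 i j A B p q).1.2.2.2.1 (cf 3 i j A B p q).1.2.2.2.2 (x ((cf 3 i j A B p q).2 1))) from h1)]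
  rw [dif_neg (show ¬ (((cf 3 i j A B p q).1.2.2.1 : ℕ) + 1 < N ∧
    (((cf 3 i j A B p q).1.2.2.1 : ℕ) + 1) * s < n) from fun h => hj h.1)]
  rw [dif_pos (show ((cf 3 i j A B p q).1.2.1 : ℕ) + 1 < N ∧
    (((cf 3 i j A B p q).1.2.1 : ℕ) + 1) * s < n from ⟨h3, h4⟩)]
  rfl

theorem next_three_end (i j : Fin N) (A B : Fin s → Vl n) (p q : Fin n)
    (h1 : ¬ ((q : ℕ) + 1 < n ∧ ¬ Abv i j A B (x q))) (h2 : ¬ Hit i j A B (x q))
    (hj : ¬ (j : ℕ) + 1 < N) (hi : ¬ (i : ℕ) + 1 < N) :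
    (mach hs hn hN).next (cf 3 i j A B p q) (fun a => x ((cf 3 i j A B p q).2 a)) =
      cf 5 i j A B p q := by
  rw [next_eq]
  unfold nxt
  rw [if_neg (show ¬ (cf 3 i j A B p q).1.1 = 0 from (by decide : ¬ ((3 : Fin 6) = 0))),
    if_neg (show ¬ (cf 3 i j A B p q).1.1 = 1 from (by decide : ¬ ((3 : Fin 6) = 1))),
    if_neg (show ¬ (cf 3 i j A B p q).1.1 = 2 from (by decide : ¬ ((3 : Fin 6) = 2))),
    if_pos (show (cf 3 i j A B p q).1.1 = 3 from rfl)]
  rw [if_neg (show ¬ Hit ((cf 3 i j A B p q).1.2.1 : ℕ) ((cf 3 i j A B p q).1.2.2.1 : ℕ)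
    (cf 3 i j A B p q).1.2.2.2.1 (cf 3 i j A B p q).1.2.2.2.2 (x ((cf 3 i j A B p q).2 1)) from h2)]
  rw [dif_neg (show ¬ (((cf 3 i j A B p q).2 1 : ℕ) + 1 < n ∧
    ¬ Abv ((cf 3 i j A B p q).1.2.1 : ℕ) ((cf 3 i j A B p q).1.2.2.1 : ℕ)
    (cf 3 i j A B p q).1.2.2.2.1 (cf 3 i j A B p q).1.2.2.2.2 (x ((cf 3 i j A B p q).2 1))) from h1)]
  rw [dif_neg (show ¬ (((cf 3 i j A B p q).1.2.2.1 : ℕ) + 1 < N ∧
    (((cf 3 i j A B p q).1.2.2.1 : ℕ) + 1) * s < n) from fun h => hj h.1)]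
  rw [dif_neg (show ¬ (((cf 3 i j A B p q).1.2.1 : ℕ) + 1 < N ∧
    (((cf 3 i j A B p q).1.2.1 : ℕ) + 1) * s < n) from fun h => hi h.1)]
  rfl

/-- a solution was found -/
def Fd (M : Machine n 2 (St n s N)) (x : Fin n → ℤ) (k : Conf n 2 (St n s N)) (d : ℕ) : Prop :=
  ∃ k' : Conf n 2 (St n s N), Sol x ∧ M.out k' = some true ∧ Go M x k k' d

theorem Fd.mono {M : Machine n 2 (St n s N)} {k : Conf n 2 (St n s N)} {d d' : ℕ} (h : Fd M x k d)
    (hd : d ≤ d') : Fd M x k d' := by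
  obtain ⟨k', h1, h2, h3⟩ := h
  exact ⟨k', h1, h2, h3.mono hd⟩

/-- one row -/
theorem row (hx : Inp n x) (hblk : ∀ i : ℕ, i < N → i * s < n) (k : Conf n 2 (St n s N)) (i : Fin N)
    (A : Fin s → Vl n) (hA : Ok x i A) (B0 : Fin s → Vl n) (D0 : ℕ)
    (hgo : Go (mach hs hn hN) x k (cf 1 i ⟨0, hN⟩ A B0 ⟨0, hn⟩ ⟨0, hn⟩) D0) :
    ∀ j : ℕ, ∀ hj : j < N, Fd (mach hs hn hN) x k (D0 + Gc x s i N + 2 * n) ∨
      ∃ (B : Fin s → Vl n) (q : Fin n),
        (∀ r : Fin n, r < q → ¬ AbvS x s i j (x r)) ∧ (∀ j' < j, ∀ r : Fin n, ¬ HitS x s i j' (x r)) ∧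
        Go (mach hs hn hN) x k (cf 1 i ⟨j, hj⟩ A B ⟨j * s, hblk j hj⟩ q) (D0 + Gc x s i j + (q : ℕ)) := by
  intro j
  induction j with
  | zero =>
    intro hj
    right
    refine ⟨B0, ⟨0, hn⟩, ?_, ?_, ?_⟩
    · intro r hr
      have : (r : ℕ) < 0 := hr
      omega
    · intro j' hj'
      omega
    · have e : (⟨0 * s, hblk 0 hj⟩ : Fin n) = ⟨0, hn⟩ := by
        apply Fin.ext
        show 0 * s = 0
        simp
      rw [e]
      exact hgo.mono (by omega)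
  | succ j ih =>
    intro hj
    rcases ih (by omega) with h | ⟨B, q, h1, h2, h3⟩
    · exact Or.inl h
    have hG := Gc_mono (x := x) (s := s) (i : ℕ) (show j + 1 ≤ N by omega)
    rw [Gc_succ] at hG
    rcases phase hx k i ⟨j, by omega⟩ (hblk i i.2) (hblk j (by omega)) A B hA q _ h1 h3 with h | h
    · left
      obtain ⟨k', e1, e2, e3⟩ := h
      refine ⟨k', e1, e2, e3.mono ?_⟩
      have := q.2
      show D0 + Gc x s i j + (q : ℕ) + (s + (Rg x s i j + 3) + n) ≤ D0 + Gc x s i N + 2 * n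
      omega
    · right
      obtain ⟨B', p', q', g1, g2, g3, g4, g5, g6, g7, g8⟩ := h
      have g2' : (p' : ℕ) / s = j := g2
      have g3' : (q : ℕ) ≤ (q' : ℕ) := g3
      have hp1 : (p' : ℕ) < (j + 1) * s := by
        have h1 := Nat.lt_div_mul_add (a := (p' : ℕ)) hs
        rw [g2'] at h1
        rw [Nat.add_mul, one_mul]
        exact h1
      have hp2 : j * s ≤ (p' : ℕ) := by
        have h1 := Nat.div_mul_le_self (p' : ℕ) s
        rw [g2'] at h1
        exact h1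
      have g9 := g8.tail (e := (j + 1) * s - (p' : ℕ))
        (out_none (by decide) (by decide) i ⟨j, by omega⟩ A B' p' q')
        (next_three_j i ⟨j, by omega⟩ A B' p' q' g4 g5 hj (hblk (j + 1) hj)) (by
          rw [sum_cf]
          unfold cdist
          show ((((j + 1) * s : ℕ) : ℤ) - ((p' : ℕ) : ℤ)).natAbs + _ ≤ _
          omega) (by omega)
      refine ⟨B', q', ?_, ?_, g9.mono ?_⟩
      · intro r hr h5
        apply g6 r hr
        intro a b ha hb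
        have h6 := h5 a ⟨(j + 1) * s, hblk (j + 1) hj⟩ ha (Nat.mul_div_cancel _ hs)
        have h7 : b < (⟨(j + 1) * s, hblk (j + 1) hj⟩ : Fin n) := by
          rw [Fin.lt_def]
          show (b : ℕ) < (j + 1) * s
          have h8 := Nat.lt_div_mul_add (a := (b : ℕ)) hs
          have hb' : (b : ℕ) / s = j := hb
          rw [hb'] at h8
          rw [Nat.add_mul, one_mul]
          exact h8
        have h9 := hx.1 h7
        omega
      · intro j' hj' r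
        rcases Nat.lt_or_ge j' j with h5 | h5
        · exact h2 j' h5 r
        · have : j' = j := by omega
          subst this
          exact g7 r
      · rw [Gc_succ]
        show D0 + Gc x s i j + (q : ℕ) + ((p' : ℕ) - j * s) + 2 * (Rg x s i j + 2) +
          ((q' : ℕ) - (q : ℕ)) + ((j + 1) * s - (p' : ℕ)) ≤
            D0 + (Gc x s i j + (2 * (Rg x s i j + 2) + s)) + (q' : ℕ)
        have e : (j + 1) * s = j * s + s := by rw [Nat.add_mul, one_mul]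
        omega

/-- the end of one row -/
theorem row_end (hx : Inp n x) (hblk : ∀ i : ℕ, i < N → i * s < n) (k : Conf n 2 (St n s N)) (i : Fin N)
    (A : Fin s → Vl n) (hA : Ok x i A) (B0 : Fin s → Vl n) (D0 : ℕ)
    (hgo : Go (mach hs hn hN) x k (cf 1 i ⟨0, hN⟩ A B0 ⟨0, hn⟩ ⟨0, hn⟩) D0) :
    Fd (mach hs hn hN) x k (D0 + Gc x s i N + 2 * n) ∨
      ∃ (j : Fin N) (B : Fin s → Vl n) (p q : Fin n), ¬ (j : ℕ) + 1 < N ∧
        ¬ ((q : ℕ) + 1 < n ∧ ¬ Abv i j A B (x q)) ∧ ¬ Hit i j A B (x q) ∧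
        (∀ j' < N, ∀ r : Fin n, ¬ HitS x s i j' (x r)) ∧
        Go (mach hs hn hN) x k (cf 3 i j A B p q) (D0 + Gc x s i N + n) := by
  have hj : N - 1 < N := by omega
  rcases row hx hblk k i A hA B0 D0 hgo (N - 1) hj with h | ⟨B, q, h1, h2, h3⟩
  · exact Or.inl h
  have hG : Gc x s i N = Gc x s i (N - 1) + (2 * (Rg x s i (N - 1) + 2) + s) := by
    have := Gc_succ (x := x) (s := s) (i : ℕ) (N - 1)
    rwa [Nat.sub_add_cancel hN] at this
  rcases phase hx k i ⟨N - 1, hj⟩ (hblk i i.2) (hblk (N - 1) hj) A B hA q _ h1 h3 with h | h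
  · left
    obtain ⟨k', e1, e2, e3⟩ := h
    refine ⟨k', e1, e2, e3.mono ?_⟩
    have := q.2
    show D0 + Gc x s i (N - 1) + (q : ℕ) + (s + (Rg x s i (N - 1) + 3) + n) ≤ D0 + Gc x s i N + 2 * n
    omega
  · right
    obtain ⟨B', p', q', g1, g2, g3, g4, g5, g6, g7, g8⟩ := h
    have g2' : (p' : ℕ) / s = N - 1 := g2
    have g3' : (q : ℕ) ≤ (q' : ℕ) := g3
    have hp1 : (p' : ℕ) < (N - 1) * s + s := by
      have h1 := Nat.lt_div_mul_add (a := (p' : ℕ)) hs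
      rw [g2'] at h1
      exact h1
    refine ⟨⟨N - 1, hj⟩, B', p', q', ?_, g4, g5, ?_, g8.mono ?_⟩
    · show ¬ (N - 1 + 1 < N)
      omega
    · intro j' hj' r
      rcases Nat.lt_or_ge j' (N - 1) with h5 | h5
      · exact h2 j' h5 r
      · have : j' = N - 1 := by omega
        subst this
        exact g7 r
    · show D0 + Gc x s i (N - 1) + (q : ℕ) + ((p' : ℕ) - (N - 1) * s) + 2 * (Rg x s i (N - 1) + 2) +
          ((q' : ℕ) - (q : ℕ)) ≤ D0 + Gc x s i N + n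
      have := q'.2
      omega

/-- all rows -/
theorem rows (hx : Inp n x) (hblk : ∀ i : ℕ, i < N → i * s < n) :
    ∀ i : ℕ, ∀ hi : i < N, Fd (mach hs hn hN) x (mach hs hn hN).start (Fc x s N N) ∨
      ∃ (j : Fin N) (A B : Fin s → Vl n) (q : Fin n),
        (∀ i' < i, ∀ j' < N, ∀ r : Fin n, ¬ HitS x s i' j' (x r)) ∧
        Go (mach hs hn hN) x (mach hs hn hN).start (cf 0 ⟨i, hi⟩ j A B ⟨i * s, hblk i hi⟩ q)
          (Fc x s N i) := by
  intro i
  induction i with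
  | zero =>
    intro hi
    right
    refine ⟨⟨0, hN⟩, fun _ => ⟨0, Nat.succ_pos _⟩, fun _ => ⟨0, Nat.succ_pos _⟩, ⟨0, hn⟩, ?_, ?_⟩
    · intro i' hi'
      omega
    · have e : (⟨0 * s, hblk 0 hi⟩ : Fin n) = ⟨0, hn⟩ := by
        apply Fin.ext
        show 0 * s = 0
        simp
      rw [e]
      exact (Go.refl _ x _).mono (Nat.zero_le _)
  | succ i ih =>
    intro hi
    rcases ih (by omega) with h | ⟨j, A, B, q, h1, h2⟩
    · exact Or.inl h
    have hF := Fc_mono (x := x) (s := s) (N := N) (show i + 1 ≤ N by omega)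
    rw [Fc_succ] at hF
    obtain ⟨A', hA', hg⟩ := load_A (hs := hs) (hn := hn) (hN := hN) hx.2 _ ⟨i, by omega⟩ j B q
      (n - i * s) A ⟨i * s, hblk i (by omega)⟩ _
      (by show i * s + (n - i * s) = n; have := hblk i (by omega); omega)
      (Nat.mul_div_cancel _ hs) (fun u hu hlt => by
        have h1 : i * s + (u : ℕ) < i * s := hlt
        omega) h2
    rcases row_end hx hblk _ ⟨i, by omega⟩ A' hA' B _ hg with h | ⟨j', B', p', q', g1, g2, g3, g4, g5⟩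
    · left
      refine h.mono ?_
      show Fc x s N i + (3 * n - i * s) + Gc x s i N + 2 * n ≤ Fc x s N N
      omega
    · right
      have g6 := g5.tail (e := n) (out_none (by decide) (by decide) ⟨i, by omega⟩ j' A' B' p' q')
        (next_three_i ⟨i, by omega⟩ j' A' B' p' q' g2 g3 g1 hi (hblk (i + 1) hi)) (by
          rw [sum_cf]
          unfold cdist
          show ((((i + 1) * s : ℕ) : ℤ) - ((p' : ℕ) : ℤ)).natAbs + _ ≤ _
          have e1 := hblk (i + 1) hi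
          have e2 := p'.2
          omega) hn
      refine ⟨⟨0, hN⟩, A', B', q', ?_, g6.mono ?_⟩
      · intro i' hi' j'' hj'' r
        rcases Nat.lt_or_ge i' i with h5 | h5
        · exact h1 i' h5 j'' hj'' r
        · have : i' = i := by omega
          subst this
          exact g4 j'' hj'' r
      · rw [Fc_succ]
        show Fc x s N i + (3 * n - i * s) + Gc x s i N + n + n ≤ Fc x s N i + (5 * n + Gc x s i N)
        omega

/-- the machine is correct, its time and travel are at most `Fc x s N N` -/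
theorem mach_main (hx : Inp n x) (hblk : ∀ i : ℕ, i < N → i * s < n) (hcov : n ≤ N * s) :
    (mach hs hn hN).Correct x ∧
      travel ((mach hs hn hN).run x) ((mach hs hn hN).time x) ≤ Fc x s N N ∧
      (mach hs hn hN).time x ≤ Fc x s N N := by
  have hi : N - 1 < N := by omega
  have hF : Fc x s N N = Fc x s N (N - 1) + (5 * n + Gc x s (N - 1) N) := by
    have := Fc_succ (x := x) (s := s) (N := N) (N - 1)
    rwa [Nat.sub_add_cancel hN] at this
  have hfd : Fd (mach hs hn hN) x (mach hs hn hN).start (Fc x s N N) →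
      (mach hs hn hN).Correct x ∧
      travel ((mach hs hn hN).run x) ((mach hs hn hN).time x) ≤ Fc x s N N ∧
      (mach hs hn hN).time x ≤ Fc x s N N := by
    rintro ⟨k', e1, e2, e3⟩
    exact e3.final e2 ⟨fun _ => e1, fun _ => rfl⟩
  rcases rows (hs := hs) (hn := hn) (hN := hN) hx hblk (N - 1) hi with h | ⟨j, A, B, q, h1, h2⟩
  · exact hfd h
  obtain ⟨A', hA', hg⟩ := load_A (hs := hs) (hn := hn) (hN := hN) hx.2 _ ⟨N - 1, hi⟩ j B q
    (n - (N - 1) * s) A ⟨(N - 1) * s, hblk (N - 1) hi⟩ _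
    (by show (N - 1) * s + (n - (N - 1) * s) = n; have := hblk (N - 1) hi; omega)
    (Nat.mul_div_cancel _ hs) (fun u hu hlt => by
      have h1 : (N - 1) * s + (u : ℕ) < (N - 1) * s := hlt
      omega) h2
  rcases row_end hx hblk _ ⟨N - 1, hi⟩ A' hA' B _ hg with h | ⟨j', B', p', q', g1, g2, g3, g4, g5⟩
  · refine hfd (h.mono ?_)
    show Fc x s N (N - 1) + (3 * n - (N - 1) * s) + Gc x s (N - 1) N + 2 * n ≤ Fc x s N N
    omega
  · have g6 := g5.tail (e := 1) (out_none (by decide) (by decide) ⟨N - 1, hi⟩ j' A' B' p' q')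
      (next_three_end ⟨N - 1, hi⟩ j' A' B' p' q' g2 g3 g1 (by show ¬ (N - 1 + 1 < N); omega)) (by
        rw [sum_cf]
        unfold cdist
        simp) le_rfl
    have hno : ¬ Sol x := by
      rintro ⟨a, b, c, e1, e2, e3, e4⟩
      have hlt : ∀ y : Fin n, (y : ℕ) / s < N := by
        intro y
        rw [Nat.div_lt_iff_lt_mul hs]
        exact lt_of_lt_of_le y.2 hcov
      have hh : HitS x s ((a : ℕ) / s) ((b : ℕ) / s) (x c) := ⟨a, b, rfl, rfl, e1, e2, e3, e4⟩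
      rcases Nat.lt_or_ge ((a : ℕ) / s) (N - 1) with h5 | h5
      · exact h1 _ h5 _ (hlt b) c hh
      · have h6 : (a : ℕ) / s = N - 1 := by have := hlt a; omega
        rw [h6] at hh
        exact g4 _ (hlt b) c hh
    have g7 : Go (mach hs hn hN) x (mach hs hn hN).start (cf 5 ⟨N - 1, hi⟩ j' A' B' p' q')
        (Fc x s N N) := by
      refine g6.mono ?_
      show Fc x s N (N - 1) + (3 * n - (N - 1) * s) + Gc x s (N - 1) N + n + 1 ≤ Fc x s N N
      omega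
    exact g7.final (b := false) rfl ⟨fun h => by simp at h, fun h => absurd h hno⟩

end

end Pool.Agent.TP97
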